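import Pool.Agent.Lib.MP_4eed4e_an_XL.LFrm

set_option autoImplicit false

/-!
Project X, block L, module LBes: the Bessel inequality (as in `_PC/CBes.lean`).
-/

namespace Pool.Agent.MP4eed4eX.L

open MeasureTheory Set Filter Topology Pool.Agent.MP4eed4eP

variable {D : Set P} [DU D]

private noncomputable abbrev cBes_mu : Measure P := volume.restrict Sq

private theorem cBes_Sq : Sq ⊆ Icc (0 : ℝ) 1 ×ˢ Icc (0 : ℝ) 1 := by
  rintro v ⟨h1, h2⟩
  exact ⟨Ioo_subset_Icc_self h1, Ioo_subset_Icc_self h2⟩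

private theorem cBes_meas : MeasurableSet Sq := (isOpen_Ioo.prod isOpen_Ioo).measurableSet

private instance : IsFiniteMeasure cBes_mu := ⟨by
  rw [Measure.restrict_apply_univ]
  exact (measure_mono cBes_Sq).trans_lt (isCompact_Icc.prod isCompact_Icc).measure_lt_top⟩

private theorem cBes_sub : D ⊆ Sq := DU_subset D

private theorem cBes_memLp {f : P → ℝ} (hf : Continuous f) : MemLp f 2 cBes_mu := by
  obtain ⟨C, hC⟩ := (isCompact_Icc.prod isCompact_Icc).exists_bound_of_continuousOn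
    (f := f) (s := Icc (0 : ℝ) 1 ×ˢ Icc (0 : ℝ) 1) hf.continuousOn
  exact MemLp.of_bound hf.aestronglyMeasurable C
    (ae_restrict_of_forall_mem cBes_meas fun x hx => hC x (cBes_Sq hx))

private theorem cBes_d1 (p : ℕ × ℕ) : Continuous (d1 (ss p)) := by
  have h := (contDiff_ss p).continuous_fderiv (by simp)
  exact h.clm_apply continuous_const

private theorem cBes_d2 (p : ℕ × ℕ) : Continuous (d2 (ss p)) := by
  have h := (contDiff_ss p).continuous_fderiv (by simp)
  exact h.clm_apply continuous_const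

private theorem cBes_inner {μ : Measure P} {f g : P → ℝ} (hf : MemLp f 2 μ) (hg : MemLp g 2 μ) :
    (inner ℝ (hf.toLp f) (hg.toLp g) : ℝ) = ∫ x, f x * g x ∂μ := by
  rw [L2.inner_def]
  refine integral_congr_ae ?_
  filter_upwards [hf.coeFn_toLp, hg.coeFn_toLp] with x h1 h2
  rw [h1, h2]
  simp [mul_comm]

/-- The Hilbert space of pairs of functions on the square. -/
private abbrev cBes_W : Type := WithLp 2 (Lp ℝ 2 cBes_mu × Lp ℝ 2 cBes_mu)

private noncomputable def cBes_e (p : ℕ × ℕ) : cBes_W :=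
  (1 / √(lams p)) • WithLp.toLp 2
    ((cBes_memLp (cBes_d1 p)).toLp (d1 (ss p)), (cBes_memLp (cBes_d2 p)).toLp (d2 (ss p)))

private theorem cBes_orth : Orthonormal ℝ cBes_e := by
  rw [orthonormal_iff_ite]
  intro p q
  have h1 : (inner ℝ (cBes_e p) (cBes_e q) : ℝ) = (1 / √(lams p)) * ((1 / √(lams q)) *
      ∫ x in Sq, (d1 (ss p) x * d1 (ss q) x + d2 (ss p) x * d2 (ss q) x)) := by
    have h2 : (∫ x in Sq, (d1 (ss p) x * d1 (ss q) x + d2 (ss p) x * d2 (ss q) x)) =
        (∫ x in Sq, d1 (ss p) x * d1 (ss q) x) + ∫ x in Sq, d2 (ss p) x * d2 (ss q) x :=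
      integral_add ((cBes_memLp (cBes_d1 p)).integrable_mul (cBes_memLp (cBes_d1 q)))
        ((cBes_memLp (cBes_d2 p)).integrable_mul (cBes_memLp (cBes_d2 q)))
    rw [h2, ← cBes_inner (cBes_memLp (cBes_d1 p)) (cBes_memLp (cBes_d1 q)),
      ← cBes_inner (cBes_memLp (cBes_d2 p)) (cBes_memLp (cBes_d2 q)), cBes_e, cBes_e,
      real_inner_smul_left, real_inner_smul_right, WithLp.prod_inner_apply]
  rw [h1, grad_ss]
  by_cases h : p = q
  · subst h
    rw [if_pos rfl, if_pos rfl]
    have h3 := lams_pos p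
    have h4 : √(lams p) * √(lams p) = lams p := Real.mul_self_sqrt h3.le
    have h5 : √(lams p) ≠ 0 := (Real.sqrt_pos.2 h3).ne'
    field_simp
    rw [sq, h4]
  · rw [if_neg h, if_neg h, mul_zero, mul_zero]

private theorem cBes_ind (f : LD D) : MemLp (D.indicator (f : P → ℝ)) 2 cBes_mu := by
  rw [memLp_indicator_iff_restrict (measurableSet_DU D), cBes_mu,
    Measure.restrict_restrict_of_subset cBes_sub]
  exact Lp.memLp f

private theorem cBes_int (g : P → ℝ) (f : LD D) :
    ∫ x, g x * D.indicator (f : P → ℝ) x ∂cBes_mu = ∫ x in D, g x * f x := by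
  have h : ∀ x, g x * D.indicator (f : P → ℝ) x = D.indicator (fun x => g x * f x) x := by
    intro x
    by_cases hx : x ∈ D
    · rw [indicator_of_mem hx, indicator_of_mem hx]
    · rw [indicator_of_notMem hx, indicator_of_notMem hx, mul_zero]
  simp_rw [h]
  rw [integral_indicator (measurableSet_DU D), cBes_mu,
    Measure.restrict_restrict_of_subset cBes_sub]

/-- The extension by zero. -/
private noncomputable def cBes_F (h : VD D) : cBes_W :=
  WithLp.toLp 2 ((cBes_ind h.fst).toLp _, (cBes_ind h.snd).toLp _)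

private theorem cBes_clD {f : P → ℝ} (hf : MemLp f 2 (muD D)) (g : LD D) :
    (inner ℝ (clD D f) g : ℝ) = ∫ x in D, f x * g x := by
  rw [L2.inner_def]
  refine integral_congr_ae ?_
  filter_upwards [coeFn_clD hf] with x h1
  rw [h1]
  simp [mul_comm]

private theorem cBes_eF (p : ℕ × ℕ) (h : VD D) :
    (inner ℝ (cBes_e p) (cBes_F h) : ℝ) = inner ℝ (kD D p) h := by
  rw [cBes_e, cBes_F, kD, real_inner_smul_left, real_inner_smul_left, WithLp.prod_inner_apply,
    WithLp.prod_inner_apply]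
  congr 1
  have h1 := cBes_inner (cBes_memLp (cBes_d1 p)) (cBes_ind h.fst)
  have h2 := cBes_inner (cBes_memLp (cBes_d2 p)) (cBes_ind h.snd)
  rw [cBes_int] at h1 h2
  rw [← cBes_clD (memLp_ssD p).2.1] at h1
  rw [← cBes_clD (memLp_ssD p).2.2] at h2
  exact congrArg₂ (· + ·) h1 h2

private theorem cBes_norm (h : VD D) : ‖cBes_F h‖ ^ 2 = ‖h‖ ^ 2 := by
  rw [← real_inner_self_eq_norm_sq, ← real_inner_self_eq_norm_sq, WithLp.prod_inner_apply,
    WithLp.prod_inner_apply]
  have key : ∀ f : (LD D), (inner ℝ ((cBes_ind f).toLp _) ((cBes_ind f).toLp _) : ℝ) =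
      inner ℝ f f := by
    intro f
    rw [cBes_inner, cBes_int, L2.inner_def]
    refine setIntegral_congr_fun (measurableSet_DU D) fun x hx => ?_
    simp only [indicator_of_mem hx]
    rw [real_inner_self_eq_norm_sq, Real.norm_eq_abs, sq_abs, sq]
  exact congrArg₂ (· + ·) (key h.fst) (key h.snd)

theorem bessel_kD (h : VD D) : Summable (fun p => (inner ℝ (kD D p) h : ℝ) ^ 2) ∧
    ∑' p, (inner ℝ (kD D p) h : ℝ) ^ 2 ≤ ‖h‖ ^ 2 := by
  have h1 : ∀ p, ‖(inner ℝ (cBes_e p) (cBes_F h) : ℝ)‖ ^ 2 = (inner ℝ (kD D p) h : ℝ) ^ 2 := by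
    intro p
    rw [cBes_eF, Real.norm_eq_abs, sq_abs]
  have h2 := cBes_orth.inner_products_summable (cBes_F h)
  have h3 := cBes_orth.tsum_inner_products_le (cBes_F h)
  simp only [h1] at h2 h3
  exact ⟨h2, h3.trans (cBes_norm h).le⟩

end Pool.Agent.MP4eed4eX.L
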