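import Pool.Agent.Lib.MP_4eed4e_an_XK.KHomeo

set_option autoImplicit false

/-!
Project X, block L, module LBij: the maps `ph b d` with small `d` are bi-Lipschitz bijections.
-/

namespace Pool.Agent.MP4eed4eX.L

open MeasureTheory Set Filter Topology Pool.Agent.MP4eed4eP

theorem exists_bij {n : ℕ} {b : Fin n → P → ℝ} (hl : ∀ i, ∃ K, LipschitzWith K (b i)) :
    ∀ᶠ d in 𝓝 (0 : Fin n → P), ∃ G : P → P, (∃ K, LipschitzWith K (ph b d)) ∧
      (∃ K, LipschitzWith K G) ∧ (∀ x, G (ph b d x) = x) ∧ ∀ y, ph b d (G y) = y := by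
  obtain ⟨C, hC⟩ := K.lip_ph' hl
  have h1 : Tendsto (fun d : Fin n → P => C * ‖d‖₊) (𝓝 0) (𝓝 (C * 0)) := by
    have h2 : Tendsto (fun d : Fin n → P => ‖d‖₊) (𝓝 0) (𝓝 ‖(0 : Fin n → P)‖₊) :=
      continuous_nnnorm.tendsto 0
    rw [nnnorm_zero] at h2
    exact h2.const_mul C
  rw [mul_zero] at h1
  have h3 : ∀ᶠ d in 𝓝 (0 : Fin n → P), C * ‖d‖₊ < 1 / 2 :=
    h1.eventually_lt_const (by norm_num)
  filter_upwards [h3] with d hd
  have hv : LipschitzWith (1 / 2 : NNReal) (fun x => ph b d x - x) :=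
    ((hC d d).2).weaken hd.le
  obtain ⟨φ, hφ⟩ := K.exists_homeo (by
    rw [← NNReal.coe_lt_coe]
    norm_num) hv
  have hφ' : ∀ x, φ x = ph b d x := fun x => by rw [hφ x]; abel
  have hlow : ∀ x y, dist x y ≤ 2 * dist (ph b d x) (ph b d y) := by
    intro x y
    have h4 := hv.dist_le_mul x y
    have h5 : dist x y ≤ dist (ph b d x) (ph b d y) + dist (ph b d x - x) (ph b d y - y) := by
      rw [dist_eq_norm, dist_eq_norm, dist_eq_norm]
      have e : x - y = (ph b d x - ph b d y) - (ph b d x - x - (ph b d y - y)) := by abel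
      rw [e]
      refine (norm_sub_le _ _).trans (le_of_eq ?_)
      congr 2
    have h6 : (((1 / 2 : NNReal) : ℝ)) = 1 / 2 := by norm_num
    rw [h6] at h4
    linarith
  refine ⟨φ.symm, ⟨1 + 1 / 2, ?_⟩, ⟨2, ?_⟩, fun x => ?_, fun y => ?_⟩
  · have h7 := (LipschitzWith.id (α := P)).add hv
    have e : (fun x => id x + (ph b d x - x)) = ph b d := by
      funext x
      simp
    rw [e] at h7
    exact h7
  · refine LipschitzWith.of_dist_le_mul fun x y => ?_
    have h8 := hlow (φ.symm x) (φ.symm y)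
    rw [← hφ', ← hφ', φ.apply_symm_apply, φ.apply_symm_apply] at h8
    exact h8
  · rw [← hφ', φ.symm_apply_apply]
  · rw [← hφ', φ.apply_symm_apply]

end Pool.Agent.MP4eed4eX.L
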