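import Pool.Agent.Lib.MP_4eed4e_an_X.XDefs

set_option autoImplicit false

/-!
Project X, block L, module LWpa: weakly piecewise affine continuous functions are affine on the
cells of a cutting of the plane.
-/

namespace Pool.Agent.MP4eed4eX.L

open MeasureTheory Set Filter Topology Pool.Agent.MP4eed4eP

private theorem lw_line0 (a b : ℝ) (h : a ≠ 0 ∨ b ≠ 0) :
    volume {v : P | a * v.1 + b * v.2 = 0} = 0 := by
  have h1 := Measure.addHaar_submodule (volume : Measure P)
    (LinearMap.ker (a • LinearMap.fst ℝ ℝ ℝ + b • LinearMap.snd ℝ ℝ ℝ)) (by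
      intro htop
      rcases h with h | h
      · have h2 : ((1 : ℝ), (0 : ℝ)) ∈
            LinearMap.ker (a • LinearMap.fst ℝ ℝ ℝ + b • LinearMap.snd ℝ ℝ ℝ) := by
          rw [htop]
          exact Submodule.mem_top
        rw [LinearMap.mem_ker] at h2
        simp at h2
        exact h h2
      · have h2 : ((0 : ℝ), (1 : ℝ)) ∈
            LinearMap.ker (a • LinearMap.fst ℝ ℝ ℝ + b • LinearMap.snd ℝ ℝ ℝ) := by
          rw [htop]
          exact Submodule.mem_top
        rw [LinearMap.mem_ker] at h2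
        simp at h2
        exact h h2)
  have h3 : {v : P | a * v.1 + b * v.2 = 0} =
      (LinearMap.ker (a • LinearMap.fst ℝ ℝ ℝ + b • LinearMap.snd ℝ ℝ ℝ) : Set P) := by
    ext v
    rw [SetLike.mem_coe, LinearMap.mem_ker]
    simp
  rw [h3]
  exact h1

private theorem lw_line (x0 : P) (a b : ℝ) (h : a ≠ 0 ∨ b ≠ 0) :
    volume {v : P | a * (-x0.1 + v.1) + b * (-x0.2 + v.2) = 0} = 0 := by
  have h1 := measure_preimage_add (volume : Measure P) (-x0) {v : P | a * v.1 + b * v.2 = 0}
  rw [lw_line0 a b h] at h1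
  exact h1

/-- The value of the affine function with the coefficients `t`. -/
def val (t : ℝ × ℝ × ℝ) (x : P) : ℝ := t.1 + t.2.1 * x.1 + t.2.2 * x.2

theorem continuous_val (t : ℝ × ℝ × ℝ) : Continuous (val t) := by
  unfold val
  fun_prop

/-- Two different affine functions agree on a null set only. -/
theorem ae_val_ne {t t' : ℝ × ℝ × ℝ} (h : t ≠ t') : ∀ᵐ x : P, val t x ≠ val t' x := by
  obtain ⟨a, b, c⟩ := t
  obtain ⟨a', b', c'⟩ := t'
  rw [ae_iff]
  simp only [val, ne_eq, not_not]
  by_cases hb : b - b' = 0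
  · by_cases hc : c - c' = 0
    · have ha : a ≠ a' := by
        intro ha
        apply h
        rw [ha, sub_eq_zero.1 hb, sub_eq_zero.1 hc]
      have he : {x : P | a + b * x.1 + c * x.2 = a' + b' * x.1 + c' * x.2} = ∅ := by
        ext x
        simp only [mem_setOf_eq, mem_empty_iff_false, iff_false]
        rw [sub_eq_zero.1 hb, sub_eq_zero.1 hc]
        intro hx
        exact ha (by linarith)
      rw [he, measure_empty]
    · refine measure_mono_null (fun x hx => ?_)
        (lw_line ((0 : ℝ), -(a - a') / (c - c')) (b - b') (c - c') (Or.inr hc))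
      have hx' : a + b * x.1 + c * x.2 = a' + b' * x.1 + c' * x.2 := hx
      show (b - b') * (-0 + x.1) + (c - c') * (-(-(a - a') / (c - c')) + x.2) = 0
      have e : (c - c') * (-(-(a - a') / (c - c'))) = a - a' := by
        field_simp
      linear_combination e + hx'
  · refine measure_mono_null (fun x hx => ?_)
      (lw_line (-(a - a') / (b - b'), (0 : ℝ)) (b - b') (c - c') (Or.inl hb))
    have hx' : a + b * x.1 + c * x.2 = a' + b' * x.1 + c' * x.2 := hx
    show (b - b') * (-(-(a - a') / (b - b')) + x.1) + (c - c') * (-0 + x.2) = 0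
    have e : (b - b') * (-(-(a - a') / (b - b'))) = a - a' := by
      field_simp
    linear_combination e + hx'

theorem exists_cells {n : ℕ} {b : Fin n → P → ℝ} (hc : ∀ i, Continuous (b i))
    (hw : ∀ i, WPA (b i)) :
    ∃ (J : Type) (_ : Fintype J) (C : J → Set P) (t : J → Fin n → ℝ × ℝ × ℝ),
      (∀ j, IsOpen (C j)) ∧ (∀ i j, i ≠ j → Disjoint (C i) (C j)) ∧
      (∀ᵐ x : P, ∃ j, x ∈ C j) ∧ ∀ j, ∀ x ∈ C j, ∀ i, b i x = val (t j i) x := by
  classical
  choose A hA using hw
  have hA' : ∀ i x, ∃ t ∈ A i, b i x = val t x := hA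
  refine ⟨{s : Fin n → ℝ × ℝ × ℝ // s ∈ Fintype.piFinset A}, inferInstance,
    fun s => {x | ∀ i, ∀ t ∈ A i, t ≠ s.1 i → val t x ≠ b i x}, fun s => s.1, fun s => ?_,
    fun s s' hss => ?_, ?_, fun s x hx i => ?_⟩
  · simp only [setOf_forall]
    refine isOpen_iInter_of_finite fun i => ?_
    refine isOpen_biInter_finset fun t _ => ?_
    by_cases h : t = s.1 i
    · have : (⋂ (_ : t ≠ s.1 i), {x | val t x ≠ b i x}) = univ := by
        simp [h]
      rw [this]
      exact isOpen_univ
    · have : (⋂ (_ : t ≠ s.1 i), {x | val t x ≠ b i x}) = {x | val t x ≠ b i x} := by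
        simp [h]
      rw [this]
      exact isOpen_ne_fun (continuous_val t) (hc i)
  · rw [Set.disjoint_left]
    intro x hx hx'
    have h1 : s.1 ≠ s'.1 := fun h => hss (Subtype.ext h)
    obtain ⟨i, hi⟩ := Function.ne_iff.1 h1
    obtain ⟨t, ht, hbt⟩ := hA' i x
    by_cases h2 : t = s.1 i
    · exact hx' i t ht (fun h3 => hi (h2.symm.trans h3)) hbt.symm
    · exact hx i t ht h2 hbt.symm
  · have h1 : ∀ᵐ x : P, ∀ i, ∀ t ∈ A i, ∀ t' ∈ A i, t ≠ t' → val t x ≠ val t' x := by
      rw [ae_all_iff]
      intro i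
      refine (ae_ball_iff (A i).countable_toSet).2 fun t _ => ?_
      refine (ae_ball_iff (A i).countable_toSet).2 fun t' _ => ?_
      by_cases h : t = t'
      · exact Eventually.of_forall fun x hx => absurd h hx
      · filter_upwards [ae_val_ne h] with x hx _
        exact hx
    filter_upwards [h1] with x hx
    choose s hs hbs using fun i => hA' i x
    refine ⟨⟨s, Fintype.mem_piFinset.2 hs⟩, fun i t ht hne => ?_⟩
    rw [hbs i]
    exact hx i t ht (s i) (hs i) hne
  · obtain ⟨t, ht, hbt⟩ := hA' i x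
    by_cases h2 : t = s.1 i
    · rw [hbt, h2]
    · exact absurd hbt.symm (hx i t ht h2)

end Pool.Agent.MP4eed4eX.L
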