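import Pool.Agent.Lib.MP_4eed4e_an_XL.LAna
import Pool.Agent.Lib.MP_4eed4e_an_XL.LWpa
import Pool.Agent.Lib.MP_4eed4e_an_XL.LBij
import Pool.Agent.Lib.MP_4eed4e_an_PG.GConf

set_option autoImplicit false

/-!
Project X, block L, module LMain: the similarity reduction and the results of block L.
-/

namespace Pool.Agent.MP4eed4eX.L

open MeasureTheory Set Filter Topology Pool.Agent.MP4eed4eP

/-! ### the trivial cutting -/

theorem cel_self {D : Set P} (hO : IsOpen D) : Cel D (fun _ : Unit => D) :=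
  ⟨fun _ => hO, fun _ => Subset.rfl, fun i j h => absurd (Subsingleton.elim i j) h, by
    filter_upwards [ae_restrict_mem hO.measurableSet] with x hx
    exact ⟨(), hx⟩⟩

theorem aff_id (D : Set P) : Aff (id : P → P) id (fun _ : Unit => D)
    (fun _ => ((1 : ℝ), (0 : ℝ))) (fun _ => ((0 : ℝ), (1 : ℝ))) :=
  ⟨⟨1, LipschitzWith.id⟩, ⟨1, LipschitzWith.id⟩, fun _ => rfl, fun _ => rfl,
    fun _ => ⟨0, fun x _ => by ext <;> simp⟩, fun _ => by simp [det2]⟩

theorem hasSum_self (D : Set P) [DU D] :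
    (∀ n, 0 < lamL D (n + 1)) ∧ Monotone (fun n => lamL D (n + 1)) ∧
    Tendsto (fun n => lamL D (n + 1)) atTop atTop ∧
    ∀ a : ℕ, 1 ≤ a → Summable (fun n => (lamL D (n + 1))⁻¹ ^ (2 * a)) := by
  have h := hasSum_img (cel_self (isOpen_DU D)) (aff_id D)
  rw [image_id] at h
  exact ⟨h.1, h.2.1, h.2.2.1, fun a ha => (h.2.2.2 a ha).summable⟩

/-! ### the similarity -/

/-- The similarity `x ↦ κ x + w`. -/
def sm (κ : ℝ) (w x : P) : P := κ • x + w

theorem sm_eq_cf (κ : ℝ) (w : P) : sm κ w = PG.cf κ 0 w := by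
  funext x
  ext
  · simp [sm, PG.cf]
  · simp [sm, PG.cf]

theorem lamL_sm {κ : ℝ} (hκ : 0 < κ) (w : P) (D : Set P) (k : ℕ) :
    lamL (sm κ w '' D) k = (κ ^ 2)⁻¹ * lamL D k := by
  have h : κ ^ 2 + (0 : ℝ) ^ 2 ≠ 0 := by positivity
  rw [sm_eq_cf, PG.lamL_cf h]
  congr 2
  ring

theorem lamL_of_sm {κ : ℝ} (hκ : 0 < κ) (w : P) (D : Set P) (k : ℕ) :
    lamL D k = κ ^ 2 * lamL (sm κ w '' D) k := by
  rw [lamL_sm hκ]
  field_simp

theorem fa_sm {κ : ℝ} (hκ : 0 < κ) (w : P) (D : Set P) (a : ℕ) :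
    fa a D = (κ ^ 2)⁻¹ ^ (2 * a) * fa a (sm κ w '' D) := by
  unfold fa
  rw [← tsum_mul_left]
  refine tsum_congr fun k => ?_
  rw [lamL_of_sm hκ w D, mul_inv, mul_pow]

theorem exists_sm {D : Set P} (hO : IsOpen D) (hb : Bornology.IsBounded D)
    (hne : D.Nonempty) : ∃ κ : ℝ, 0 < κ ∧ ∃ w : P, DU (sm κ w '' D) := by
  obtain ⟨R, hR⟩ := hb.subset_ball (0 : P)
  have hR0 : 0 < R := by
    obtain ⟨x, hx⟩ := hne
    exact Metric.pos_of_mem_ball (hR hx)
  refine ⟨1 / (2 * R), by positivity, ((1 / 2 : ℝ), (1 / 2 : ℝ)), ?_, ?_, hne.image _⟩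
  · have h : (1 / (2 * R)) ^ 2 + (0 : ℝ) ^ 2 ≠ 0 := by positivity
    have e : sm (1 / (2 * R)) ((1 / 2 : ℝ), (1 / 2 : ℝ)) '' D =
        PG.cfH (1 / (2 * R)) 0 h ((1 / 2 : ℝ), (1 / 2 : ℝ)) '' D := by
      rw [sm_eq_cf]
      rfl
    rw [e]
    exact (PG.cfH _ _ h _).isOpenMap D hO
  · rintro _ ⟨x, hx, rfl⟩
    have h1 := hR hx
    rw [mem_ball_zero_iff, Prod.norm_def, max_lt_iff, Real.norm_eq_abs, Real.norm_eq_abs,
      abs_lt, abs_lt] at h1
    obtain ⟨⟨h2, h3⟩, h4, h5⟩ := h1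
    have key : ∀ t : ℝ, -R < t → t < R → 0 < 1 / (2 * R) * t + 1 / 2 ∧
        1 / (2 * R) * t + 1 / 2 < 1 := by
      intro t h6 h7
      have e : 1 / (2 * R) * t + 1 / 2 = (t + R) / (2 * R) := by
        field_simp
      rw [e]
      exact ⟨div_pos (by linarith) (by linarith), by
        rw [div_lt_one (by linarith)]
        linarith⟩
    exact ⟨key x.1 h2 h3, key x.2 h4 h5⟩

/-! ### results -/

theorem lamL_pos' {D : Set P} (hO : IsOpen D) (hb : Bornology.IsBounded D) (hne : D.Nonempty)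
    (k : ℕ) : 0 < lamL D (k + 1) := by
  obtain ⟨κ, hκ, w, hD⟩ := exists_sm hO hb hne
  rw [lamL_of_sm hκ w D]
  exact mul_pos (by positivity) ((hasSum_self (sm κ w '' D)).1 k)

theorem lamL_mono' {D : Set P} (hO : IsOpen D) (hb : Bornology.IsBounded D)
    (hne : D.Nonempty) : Monotone (fun k => lamL D k) := by
  obtain ⟨κ, hκ, w, hD⟩ := exists_sm hO hb hne
  refine monotone_nat_of_le_succ fun k => ?_
  rcases k with _ | k
  · rw [PG.lamL_zero]
    exact (lamL_pos' hO hb hne 0).le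
  · rw [lamL_of_sm hκ w D (k + 1), lamL_of_sm hκ w D (k + 1 + 1)]
    exact mul_le_mul_of_nonneg_left ((hasSum_self (sm κ w '' D)).2.1 (Nat.le_succ k))
      (by positivity)

theorem lamL_tendsto' {D : Set P} (hO : IsOpen D) (hb : Bornology.IsBounded D)
    (hne : D.Nonempty) : Tendsto (fun k => lamL D k) atTop atTop := by
  obtain ⟨κ, hκ, w, hD⟩ := exists_sm hO hb hne
  rw [← tendsto_add_atTop_iff_nat 1]
  have e : (fun k => lamL D (k + 1)) = fun k => κ ^ 2 * lamL (sm κ w '' D) (k + 1) := by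
    funext k
    exact lamL_of_sm hκ w D (k + 1)
  rw [e]
  exact (hasSum_self (sm κ w '' D)).2.2.1.const_mul_atTop (by positivity)

theorem summable_lamL' {D : Set P} (hO : IsOpen D) (hb : Bornology.IsBounded D)
    (hne : D.Nonempty) {a : ℕ} (ha : 1 ≤ a) :
    Summable (fun k => ((lamL D (k + 1))⁻¹) ^ (2 * a)) := by
  obtain ⟨κ, hκ, w, hD⟩ := exists_sm hO hb hne
  have e : (fun k => ((lamL D (k + 1))⁻¹) ^ (2 * a)) =
      fun k => (κ ^ 2)⁻¹ ^ (2 * a) * ((lamL (sm κ w '' D) (k + 1))⁻¹) ^ (2 * a) := by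
    funext k
    rw [lamL_of_sm hκ w D (k + 1), mul_inv, mul_pow]
  rw [e]
  exact ((hasSum_self (sm κ w '' D)).2.2.2 a ha).mul_left _

/-- Analyticity for subsets of the unit square. -/
theorem analytic_DU {n : ℕ} (D : Set P) [DU D] {b : Fin n → P → ℝ}
    (hl : ∀ i, ∃ K, LipschitzWith K (b i)) (hw : ∀ i, WPA (b i)) {a : ℕ} (ha : 1 ≤ a) :
    AnalyticAt ℝ (fun d : Fin n → P => fa a (ph b d '' D)) 0 := by
  have hc : ∀ i, Continuous (b i) := fun i => by
    obtain ⟨K, hK⟩ := hl i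
    exact hK.continuous
  obtain ⟨J, hJ, C, t, h1, h2, h3, h4⟩ := exists_cells hc hw
  have hC : Cel D (fun j => C j ∩ D) := by
    refine ⟨fun j => (h1 j).inter (isOpen_DU D), fun j => inter_subset_right,
      fun i j hij => (h2 i j hij).mono inter_subset_left inter_subset_left, ?_⟩
    filter_upwards [ae_restrict_of_ae h3, ae_restrict_mem (measurableSet_DU D)] with x hx hxD
    obtain ⟨j, hj⟩ := hx
    exact ⟨j, hj, hxD⟩
  have hco : ∀ (i : Fin n) (d : Fin n → P), AnalyticAt ℝ (fun d : Fin n → P => d i) d :=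
    fun i d => (ContinuousLinearMap.proj (R := ℝ) (φ := fun _ : Fin n => P) i).analyticAt d
  have hA : ∀ j, AnalyticAt ℝ (fun d : Fin n → P =>
      ((1 : ℝ), (0 : ℝ)) + ∑ i, (t j i).2.1 • d i) 0 := fun j =>
    analyticAt_const.add (Finset.analyticAt_fun_sum _ fun i _ => (hco i 0).fun_const_smul)
  have hB : ∀ j, AnalyticAt ℝ (fun d : Fin n → P =>
      ((0 : ℝ), (1 : ℝ)) + ∑ i, (t j i).2.2 • d i) 0 := fun j =>
    analyticAt_const.add (Finset.analyticAt_fun_sum _ fun i _ => (hco i 0).fun_const_smul)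
  refine analyticAt_fa hC (F := ph b)
    (A := fun d j => ((1 : ℝ), (0 : ℝ)) + ∑ i, (t j i).2.1 • d i)
    (B := fun d j => ((0 : ℝ), (1 : ℝ)) + ∑ i, (t j i).2.2 • d i) hA hB ?_ ha
  have hdet : ∀ᶠ d in 𝓝 (0 : Fin n → P), ∀ j, 0 < det2
      (((1 : ℝ), (0 : ℝ)) + ∑ i, (t j i).2.1 • d i)
      (((0 : ℝ), (1 : ℝ)) + ∑ i, (t j i).2.2 • d i) := by
    rw [eventually_all]
    intro j
    have h5 := (analyticAt_det2 (hA j) (hB j)).continuousAt
    refine continuousAt_const.eventually_lt h5 ?_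
    simp [det2]
  filter_upwards [exists_bij hl, hdet] with d hd hdd
  obtain ⟨G, g1, g2, g3, g4⟩ := hd
  refine ⟨G, g1, g2, g3, g4, fun j => ⟨∑ i, (t j i).1 • d i, fun x hx => ?_⟩, hdd⟩
  unfold ph
  have e : ∀ i, b i x = (t j i).1 + (t j i).2.1 * x.1 + (t j i).2.2 * x.2 := fun i =>
    h4 j x hx.1 i
  simp only [e, add_smul, Finset.sum_add_distrib, mul_smul, smul_add, Finset.smul_sum]
  have e1 : ∀ i, (t j i).2.1 • x.1 • d i = x.1 • (t j i).2.1 • d i := fun i => smul_comm _ _ _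
  have e2 : ∀ i, (t j i).2.2 • x.2 • d i = x.2 • (t j i).2.2 • d i := fun i => smul_comm _ _ _
  simp only [e1, e2]
  have e3 : x = x.1 • ((1 : ℝ), (0 : ℝ)) + x.2 • ((0 : ℝ), (1 : ℝ)) := by
    ext <;> simp
  conv_lhs => rw [e3]
  simp only [Prod.fst_add, Prod.snd_add, Prod.smul_fst, Prod.smul_snd, smul_eq_mul, mul_one,
    mul_zero, add_zero, zero_add]
  abel

/-- The functions `b` transported by the similarity. -/
private theorem sm_ph {n : ℕ} (b : Fin n → P → ℝ) {κ : ℝ} (hκ : 0 < κ) (w : P)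
    (d : Fin n → P) (x : P) :
    sm κ w (ph b d x) = ph (fun i y => κ * b i (κ⁻¹ • (y - w))) d (sm κ w x) := by
  unfold sm ph
  have e : κ⁻¹ • (κ • x + w - w) = x := by
    rw [add_sub_cancel_right, smul_smul, inv_mul_cancel₀ hκ.ne', one_smul]
  simp only [e, smul_add, Finset.smul_sum, mul_smul]
  abel

theorem analytic_tr' {n : ℕ} {D : Set P} (hO : IsOpen D) (hb : Bornology.IsBounded D)
    (hne : D.Nonempty) {b : Fin n → P → ℝ} (hl : ∀ i, ∃ K, LipschitzWith K (b i))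
    (hw : ∀ i, WPA (b i)) {a : ℕ} (ha : 1 ≤ a) :
    AnalyticAt ℝ (fun d : Fin n → P => fa a (ph b d '' D)) 0 := by
  obtain ⟨κ, hκ, w, hD⟩ := exists_sm hO hb hne
  have hl' : ∀ i, ∃ K, LipschitzWith K (fun y => κ * b i (κ⁻¹ • (y - w))) := by
    intro i
    obtain ⟨K, hK⟩ := hl i
    refine ⟨K, LipschitzWith.of_dist_le_mul fun x y => ?_⟩
    rw [Real.dist_eq, ← mul_sub, abs_mul, abs_of_pos hκ, ← Real.dist_eq]
    have h1 := hK.dist_le_mul (κ⁻¹ • (x - w)) (κ⁻¹ • (y - w))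
    have h2 : dist (κ⁻¹ • (x - w)) (κ⁻¹ • (y - w)) = κ⁻¹ * dist x y := by
      rw [dist_smul₀, dist_sub_right, Real.norm_eq_abs, abs_of_pos (inv_pos.2 hκ)]
    rw [h2] at h1
    calc κ * dist (b i (κ⁻¹ • (x - w))) (b i (κ⁻¹ • (y - w)))
        ≤ κ * (K * (κ⁻¹ * dist x y)) := mul_le_mul_of_nonneg_left h1 hκ.le
      _ = K * dist x y := by field_simp
  have hw' : ∀ i, WPA (fun y => κ * b i (κ⁻¹ • (y - w))) := by
    intro i
    obtain ⟨A, hA⟩ := hw i
    classical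
    refine ⟨A.image fun t => (κ * t.1 - t.2.1 * w.1 - t.2.2 * w.2, t.2.1, t.2.2), fun y => ?_⟩
    obtain ⟨t, ht, h1⟩ := hA (κ⁻¹ • (y - w))
    refine ⟨_, Finset.mem_image_of_mem _ ht, ?_⟩
    simp only
    rw [h1]
    simp only [Prod.smul_fst, Prod.smul_snd, Prod.fst_sub, Prod.snd_sub, smul_eq_mul]
    field_simp
    ring
  have h1 := analytic_DU (sm κ w '' D) hl' hw' ha
  have h2 : (fun d : Fin n → P => fa a (ph b d '' D)) = fun d : Fin n → P =>
      (κ ^ 2)⁻¹ ^ (2 * a) *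
        fa a (ph (fun i y => κ * b i (κ⁻¹ • (y - w))) d '' (sm κ w '' D)) := by
    funext d
    rw [fa_sm hκ w (ph b d '' D) a]
    congr 2
    rw [image_image, image_image]
    exact image_congr fun x _ => sm_ph b hκ w d x
  rw [h2]
  exact analyticAt_const.mul h1

end Pool.Agent.MP4eed4eX.L
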