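import Pool.Agent.Lib.MP_4eed4e_an_XL.LLam

set_option autoImplicit false

/-!
Project X, block L, module LAna: the operators depend analytically on the columns (as in
`_PD/DAna`), so do the traces.
-/

namespace Pool.Agent.MP4eed4eX.L

open MeasureTheory Set Filter Topology Pool.Agent.MP4eed4eP

variable {D : Set P} [DU D] {J : Type} [Fintype J] {C : J → Set P}
  {E : Type} [NormedAddCommGroup E] [NormedSpace ℝ E]

omit [Fintype J] in
private theorem lan_fst {f : E → P} {c : E} (h : AnalyticAt ℝ f c) :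
    AnalyticAt ℝ (fun c => (f c).1) c :=
  ((ContinuousLinearMap.fst ℝ ℝ ℝ).analyticAt _).comp h

private theorem lan_snd {f : E → P} {c : E} (h : AnalyticAt ℝ f c) :
    AnalyticAt ℝ (fun c => (f c).2) c :=
  ((ContinuousLinearMap.snd ℝ ℝ ℝ).analyticAt _).comp h

private theorem lan_dt {f f' : E → P} {c : E} (h : AnalyticAt ℝ f c)
    (h' : AnalyticAt ℝ f' c) : AnalyticAt ℝ (fun c => dt (f c) (f' c)) c :=
  ((lan_fst h).mul (lan_fst h')).add ((lan_snd h).mul (lan_snd h'))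

theorem analyticAt_det2 {f f' : E → P} {c : E} (h : AnalyticAt ℝ f c)
    (h' : AnalyticAt ℝ f' c) : AnalyticAt ℝ (fun c => det2 (f c) (f' c)) c :=
  ((lan_fst h).mul (lan_snd h')).sub ((lan_snd h).mul (lan_fst h'))

theorem analyticAt_MD {A B : E → J → P} {c : E} (hA : ∀ j, AnalyticAt ℝ (fun c => A c j) c)
    (hB : ∀ j, AnalyticAt ℝ (fun c => B c j) c) (hd : ∀ j, 0 < det2 (A c j) (B c j)) :
    AnalyticAt ℝ (fun c => MD D C (A c) (B c)) c := by
  unfold MD
  refine Finset.analyticAt_fun_sum _ fun j _ => ?_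
  have h0 := (hd j).ne'
  have hJ := analyticAt_det2 (hA j) (hB j)
  have h1 : AnalyticAt ℝ (fun c => n11 (A c j) (B c j)) c := (lan_dt (hB j) (hB j)).div hJ h0
  have h2 : AnalyticAt ℝ (fun c => n12 (A c j) (B c j)) c :=
    (lan_dt (hA j) (hB j)).neg.div hJ h0
  have h3 : AnalyticAt ℝ (fun c => n22 (A c j) (B c j)) c := (lan_dt (hA j) (hA j)).div hJ h0
  exact ((h1.smul analyticAt_const).add (h2.smul analyticAt_const)).add
    (h3.smul analyticAt_const)

theorem analyticAt_AD {A B : E → J → P} {c : E} (hA : ∀ j, AnalyticAt ℝ (fun c => A c j) c)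
    (hB : ∀ j, AnalyticAt ℝ (fun c => B c j) c) (hd : ∀ j, 0 < det2 (A c j) (B c j)) :
    AnalyticAt ℝ (fun c => AD D C (A c) (B c)) c := by
  have h1 := analyticAt_MD (D := D) (C := C) hA hB hd
  have h2 : AnalyticAt ℝ (fun X : HD D →L[ℝ] VD D =>
      ((HD D).orthogonalProjection ∘L X : HD D →L[ℝ] HD D))
      (MD D C (A c) (B c) ∘L (HD D).subtypeL) := by
    have h := ContinuousLinearMap.analyticAt (𝕜 := ℝ) (E := HD D →L[ℝ] VD D)
      (F := HD D →L[ℝ] HD D)
      (ContinuousLinearMap.compL ℝ (HD D) (VD D) (HD D) (HD D).orthogonalProjection)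
      (MD D C (A c) (B c) ∘L (HD D).subtypeL)
    exact h
  have h3 : AnalyticAt ℝ (fun X : VD D →L[ℝ] VD D => (X ∘L (HD D).subtypeL : HD D →L[ℝ] VD D))
      (MD D C (A c) (B c)) := by
    have h := ContinuousLinearMap.analyticAt (𝕜 := ℝ) (E := VD D →L[ℝ] VD D)
      (F := HD D →L[ℝ] VD D)
      (ContinuousLinearMap.precomp (VD D) (HD D).subtypeL) (MD D C (A c) (B c))
    exact h
  have h4 : AnalyticAt ℝ (fun c => (MD D C (A c) (B c) ∘L (HD D).subtypeL :
      HD D →L[ℝ] VD D)) c :=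
    h3.comp' (f := fun c => MD D C (A c) (B c)) h1
  exact h2.comp' (f := fun c => (MD D C (A c) (B c) ∘L (HD D).subtypeL : HD D →L[ℝ] VD D)) h4

/-- The traces are analytic. -/
theorem analyticAt_fa (hC : Cel D C) {A B : E → J → P} {F : E → P → P} {c : E}
    (hA : ∀ j, AnalyticAt ℝ (fun c => A c j) c) (hB : ∀ j, AnalyticAt ℝ (fun c => B c j) c)
    (hF : ∀ᶠ c' in 𝓝 c, ∃ G, Aff (F c') G C (A c') (B c')) {a : ℕ} (ha : 1 ≤ a) :
    AnalyticAt ℝ (fun c => fa a (F c '' D)) c := by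
  obtain ⟨G, hG⟩ := hF.self_of_nhds
  have h1 : AnalyticAt ℝ (fun c => PA.trc (sD D) (PA.SS (ioD D) (AD D C (A c) (B c))
      (PA.RR (fun j : J => chiD D (C j)) (fun j => √(det2 (A c j) (B c j))))) a) c := by
    refine PA.analyticAt_trc (rho := fun j c => √(det2 (A c j) (B c j))) (emb_D D)
      (fun j : J => chiD D (C j)) (analyticAt_AD hA hB hG.det) (fun j => ?_)
      (coer_AD hC hG.det).isUnit ha
    have h2 : AnalyticAt ℝ (fun x : ℝ => √x) (det2 (A c j) (B c j)) :=
      (Real.contDiffAt_sqrt (n := ⊤) (hG.det j).ne').analyticAt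
    exact h2.comp' (f := fun c => det2 (A c j) (B c j)) (analyticAt_det2 (hA j) (hB j))
  refine h1.congr ?_
  filter_upwards [hF] with x hx
  obtain ⟨G', hG'⟩ := hx
  exact (fa_img hC hG' ha).symm

end Pool.Agent.MP4eed4eX.L
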