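import Pool.Agent.Lib.MP_4eed4e_an_PC.CBase

set_option autoImplicit false

/-!
Project X, block L, module LBase: the Hilbert spaces `LD D = L²(D)`, `VD D = L²(D) × L²(D)` and
`HD D` (closure of the gradients) of a nonempty open subset `D` of the unit square (class `DU`).
-/

namespace Pool.Agent.MP4eed4eX.L

open MeasureTheory Set Filter Topology Pool.Agent.MP4eed4eP

/-- Nonempty open subsets of the unit square. -/
class DU (D : Set P) : Prop where
  isOpen : IsOpen D
  sub : D ⊆ Ioo (0 : ℝ) 1 ×ˢ Ioo (0 : ℝ) 1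
  ne : D.Nonempty

theorem isOpen_DU (D : Set P) [DU D] : IsOpen D := DU.isOpen

theorem measurableSet_DU (D : Set P) [DU D] : MeasurableSet D := (isOpen_DU D).measurableSet

theorem DU_subset (D : Set P) [DU D] : D ⊆ Ioo (0 : ℝ) 1 ×ˢ Ioo (0 : ℝ) 1 := DU.sub

theorem volume_DU_lt_top (D : Set P) [DU D] : volume D < ⊤ := by
  refine (measure_mono ((DU_subset D).trans
    (prod_mono Ioo_subset_Icc_self Ioo_subset_Icc_self))).trans_lt ?_
  exact (isCompact_Icc.prod isCompact_Icc).measure_lt_top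

/-- Lebesgue measure on the region. -/
noncomputable abbrev muD (D : Set P) : Measure P := volume.restrict D

instance (D : Set P) [DU D] : IsFiniteMeasure (muD D) :=
  ⟨by rw [Measure.restrict_apply_univ]; exact volume_DU_lt_top D⟩

/-- `L²(D)`. -/
abbrev LD (D : Set P) : Type := Lp ℝ 2 (muD D)

/-- `L²(D) × L²(D)` with the Hilbert norm. -/
abbrev VD (D : Set P) : Type := WithLp 2 (LD D × LD D)

/-- The class in `L²(D)` of a function. -/
noncomputable def clD (D : Set P) (f : P → ℝ) : LD D := by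
  classical
  exact if h : MemLp f 2 (muD D) then h.toLp f else 0

variable {D : Set P}

theorem clD_of_memLp {f : P → ℝ} (h : MemLp f 2 (muD D)) : clD D f = h.toLp f := by
  simp [clD, h]

theorem coeFn_clD {f : P → ℝ} (h : MemLp f 2 (muD D)) : clD D f =ᵐ[muD D] f := by
  rw [clD_of_memLp h]
  exact h.coeFn_toLp

theorem clD_congr {f g : P → ℝ} (hf : MemLp f 2 (muD D)) (h : f =ᵐ[muD D] g) :
    clD D f = clD D g := by
  rw [clD_of_memLp hf, clD_of_memLp ((memLp_congr_ae h).1 hf)]
  exact MemLp.toLp_congr _ _ h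

theorem clD_add {f g : P → ℝ} (hf : MemLp f 2 (muD D)) (hg : MemLp g 2 (muD D)) :
    clD D (f + g) = clD D f + clD D g := by
  rw [clD_of_memLp hf, clD_of_memLp hg, clD_of_memLp (hf.add hg)]
  rfl

theorem clD_smul {f : P → ℝ} (hf : MemLp f 2 (muD D)) (r : ℝ) :
    clD D (r • f) = r • clD D f := by
  rw [clD_of_memLp hf, clD_of_memLp (hf.const_smul r)]
  rfl

theorem clD_coe (f : LD D) : clD D (f : P → ℝ) = f := by
  rw [clD_of_memLp (Lp.memLp f)]
  exact Lp.toLp_coeFn f (Lp.memLp f)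

/-- The inner product of two classes. -/
theorem inner_clD {f g : P → ℝ} (hf : MemLp f 2 (muD D)) (hg : MemLp g 2 (muD D)) :
    (inner ℝ (clD D f) (clD D g) : ℝ) = ∫ x in D, f x * g x := by
  rw [L2.inner_def]
  refine integral_congr_ae ?_
  filter_upwards [coeFn_clD hf, coeFn_clD hg] with x h1 h2
  rw [h1, h2]
  simp [mul_comm]

variable [DU D]

theorem memLp_bddD {f : P → ℝ} (hm : Measurable f) {C : ℝ} (h : ∀ x, |f x| ≤ C) :
    MemLp f 2 (muD D) :=
  MemLp.of_bound hm.aestronglyMeasurable C (Eventually.of_forall fun x => by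
    rw [Real.norm_eq_abs]; exact h x)

theorem lipC_memLpD {D' : Set P} {f : P → ℝ} (hf : LipC D' f) : MemLp f 2 (muD D) := by
  obtain ⟨C, hC⟩ := hf.bdd
  exact memLp_bddD hf.continuous.measurable hC

theorem memLp_d1D {f : P → ℝ} {K : NNReal} (h : LipschitzWith K f) :
    MemLp (d1 f) 2 (muD D) :=
  memLp_bddD (measurable_d1 f) (abs_d1_le h)

theorem memLp_d2D {f : P → ℝ} {K : NNReal} (h : LipschitzWith K f) :
    MemLp (d2 f) 2 (muD D) :=
  memLp_bddD (measurable_d2 f) (abs_d2_le h)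

/-- The value map. -/
noncomputable def valD (D : Set P) [DU D] : LipS D →ₗ[ℝ] LD D where
  toFun f := clD D f.1
  map_add' f g := clD_add (lipC_memLpD f.2) (lipC_memLpD g.2)
  map_smul' r f := clD_smul (lipC_memLpD f.2) r

theorem valD_apply (f : LipS D) : valD D f = clD D f.1 := rfl

/-- The pair of the classes of two functions. -/
noncomputable def prD (D : Set P) (f g : P → ℝ) : VD D := WithLp.toLp 2 (clD D f, clD D g)

omit [DU D] in
theorem inner_prD {f1 f2 g1 g2 : P → ℝ} (hf1 : MemLp f1 2 (muD D)) (hf2 : MemLp f2 2 (muD D))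
    (hg1 : MemLp g1 2 (muD D)) (hg2 : MemLp g2 2 (muD D)) :
    (inner ℝ (prD D f1 f2) (prD D g1 g2) : ℝ) = ∫ x in D, (f1 x * g1 x + f2 x * g2 x) := by
  have h : (∫ x in D, (f1 x * g1 x + f2 x * g2 x)) =
      (∫ x in D, f1 x * g1 x) + ∫ x in D, f2 x * g2 x :=
    integral_add (hf1.integrable_mul hg1) (hf2.integrable_mul hg2)
  rw [h, ← inner_clD hf1 hg1, ← inner_clD hf2 hg2]
  simp [prD, WithLp.prod_inner_apply]

omit [DU D] in
/-- Every element of `VD D` is a pair of classes. -/
theorem exists_prD (v : VD D) : ∃ f1 f2 : P → ℝ, MemLp f1 2 (muD D) ∧ MemLp f2 2 (muD D) ∧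
    v = prD D f1 f2 := by
  refine ⟨(v.fst : LD D), (v.snd : LD D), Lp.memLp _, Lp.memLp _, ?_⟩
  unfold prD
  rw [clD_coe, clD_coe]
  rfl

/-- The gradient map. -/
noncomputable def grdD (D : Set P) [DU D] : LipS D →ₗ[ℝ] VD D where
  toFun f := prD D (d1 f.1) (d2 f.1)
  map_add' f g := by
    obtain ⟨⟨K, hK⟩, -, -⟩ := id f.2
    obtain ⟨⟨K', hK'⟩, -, -⟩ := id g.2
    have h1 : clD D (d1 (f.1 + g.1)) = clD D (d1 f.1) + clD D (d1 g.1) := by
      rw [← clD_add (memLp_d1D hK) (memLp_d1D hK')]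
      refine clD_congr (memLp_d1D (hK.add hK')) (ae_restrict_of_ae ?_)
      filter_upwards [ae_diff hK, ae_diff hK'] with x hx hx'
      exact d1_add hx hx'
    have h2 : clD D (d2 (f.1 + g.1)) = clD D (d2 f.1) + clD D (d2 g.1) := by
      rw [← clD_add (memLp_d2D hK) (memLp_d2D hK')]
      refine clD_congr (memLp_d2D (hK.add hK')) (ae_restrict_of_ae ?_)
      filter_upwards [ae_diff hK, ae_diff hK'] with x hx hx'
      exact d2_add hx hx'
    show WithLp.toLp 2 (clD D (d1 (f.1 + g.1)), clD D (d2 (f.1 + g.1))) = _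
    rw [h1, h2]
    rfl
  map_smul' r f := by
    obtain ⟨⟨K, hK⟩, -, -⟩ := id f.2
    have h1 : clD D (d1 (r • f.1)) = r • clD D (d1 f.1) := by
      rw [← clD_smul (memLp_d1D hK)]
      congr 1
      ext x
      exact d1_smul r f.1 x
    have h2 : clD D (d2 (r • f.1)) = r • clD D (d2 f.1) := by
      rw [← clD_smul (memLp_d2D hK)]
      congr 1
      ext x
      exact d2_smul r f.1 x
    show WithLp.toLp 2 (clD D (d1 (r • f.1)), clD D (d2 (r • f.1))) = _
    rw [h1, h2]
    rfl

theorem grdD_apply (f : LipS D) : grdD D f = prD D (d1 f.1) (d2 f.1) := rfl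

/-- The space `H` of the project: the closure of the gradients. -/
noncomputable abbrev HD (D : Set P) [DU D] : Submodule ℝ (VD D) :=
  (LinearMap.range (grdD D)).topologicalClosure

theorem grdD_mem (f : LipS D) : grdD D f ∈ HD D :=
  Submodule.le_topologicalClosure _ ⟨f, rfl⟩

/-- The gradient as an element of `HD D`. -/
noncomputable def gHD (f : LipS D) : HD D := ⟨grdD D f, grdD_mem f⟩

end Pool.Agent.MP4eed4eX.L
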