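import Pool.Agent.Lib.MP_4eed4e_an_XL.LBase

set_option autoImplicit false

/-!
Project X, block L, module LCel: cells and bi-Lipschitz maps which are affine on the cells;
change of variables.
-/

namespace Pool.Agent.MP4eed4eX.L

open MeasureTheory Set Filter Topology Pool.Agent.MP4eed4eP

/-- The open sets `C j` are disjoint and fill `D` up to a null set. -/
structure Cel (D : Set P) {J : Type} (C : J → Set P) : Prop where
  isOpen : ∀ j, IsOpen (C j)
  sub : ∀ j, C j ⊆ D
  disj : ∀ i j, i ≠ j → Disjoint (C i) (C j)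
  ae : ∀ᵐ x ∂muD D, ∃ j, x ∈ C j

/-- `F` is a bi-Lipschitz bijection of the plane with the inverse `G`, and it is affine on the
sets `C j` with the columns `A j`, `B j` and with positive determinant. -/
structure Aff (F G : P → P) {J : Type} (C : J → Set P) (A B : J → P) : Prop where
  lipF : ∃ K, LipschitzWith K F
  lipG : ∃ K, LipschitzWith K G
  left : ∀ x, G (F x) = x
  right : ∀ y, F (G y) = y
  aff : ∀ j, ∃ q : P, ∀ x ∈ C j, F x = q + (x.1 • A j + x.2 • B j)
  det : ∀ j, 0 < det2 (A j) (B j)

variable {D : Set P} {J : Type} {C : J → Set P} {F G : P → P} {A B : J → P}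

theorem Cel.meas (hC : Cel D C) (j : J) : MeasurableSet (C j) := (hC.isOpen j).measurableSet

theorem Aff.image_eq (hF : Aff F G C A B) (S : Set P) : F '' S = G ⁻¹' S := by
  ext y
  constructor
  · rintro ⟨x, hx, rfl⟩
    show G (F x) ∈ S
    rw [hF.left]
    exact hx
  · intro hy
    exact ⟨G y, hy, hF.right y⟩

theorem Aff.isOpen_image (hF : Aff F G C A B) {S : Set P} (hS : IsOpen S) :
    IsOpen (F '' S) := by
  rw [hF.image_eq]
  obtain ⟨K, hK⟩ := hF.lipG
  exact hS.preimage hK.continuous

theorem Aff.bdd_image (hF : Aff F G C A B) {S : Set P} (hS : Bornology.IsBounded S) :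
    Bornology.IsBounded (F '' S) := by
  obtain ⟨K, hK⟩ := hF.lipF
  exact hK.isBounded_image hS

theorem Aff.inj (hF : Aff F G C A B) : Function.Injective F := fun x y h => by
  rw [← hF.left x, h, hF.left]

/-- The linear map with the columns `a`, `b`. -/
noncomputable def linC (a b : P) : P →L[ℝ] P :=
  (ContinuousLinearMap.fst ℝ ℝ ℝ).smulRight a + (ContinuousLinearMap.snd ℝ ℝ ℝ).smulRight b

theorem linC_apply (a b v : P) : linC a b v = v.1 • a + v.2 • b := rfl

theorem linC_det (a b : P) : (linC a b).det = det2 a b := by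
  show LinearMap.det (linC a b : P →ₗ[ℝ] P) = det2 a b
  rw [← LinearMap.det_toMatrix (Module.Basis.finTwoProd ℝ), Matrix.det_fin_two]
  simp only [LinearMap.toMatrix_apply, Module.Basis.finTwoProd_zero,
    Module.Basis.finTwoProd_one, Module.Basis.coe_finTwoProd_repr, ContinuousLinearMap.coe_coe,
    linC_apply, det2]
  simp
  ring

theorem Aff.hasFDerivAt (hF : Aff F G C A B) (hC : Cel D C) {j : J} {v : P} (hv : v ∈ C j) :
    HasFDerivAt F (linC (A j) (B j)) v := by
  obtain ⟨q, hq⟩ := hF.aff j
  have h1 : HasFDerivAt (fun w : P => q + linC (A j) (B j) w) (linC (A j) (B j)) v :=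
    (linC (A j) (B j)).hasFDerivAt.const_add q
  refine h1.congr_of_eventuallyEq ?_
  filter_upwards [(hC.isOpen j).mem_nhds hv] with w hw
  exact hq w hw

/-- Proof. A Lipschitz map of the plane maps null sets to null sets (Hausdorff measure). -/
theorem lip_null {H : P → P} (hH : ∃ K, LipschitzWith K H) {S : Set P} (hS : volume S = 0) :
    volume (H '' S) = 0 := by
  obtain ⟨K, hK⟩ := hH
  have h4 := hK.hausdorffMeasure_image_le (d := 2) (by norm_num) S
  rw [hausdorffMeasure_prod_real, hS, mul_zero] at h4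
  exact le_antisymm h4 zero_le

theorem Aff.ae_comp (hF : Aff F G C A B) {p : P → Prop} (hp : ∀ᵐ y : P, p y) :
    ∀ᵐ v : P, p (F v) := by
  have h0 : volume {y : P | ¬ p y} = 0 := hp
  have h1 := lip_null hF.lipG h0
  rw [ae_iff]
  refine measure_mono_null (fun v hv => ?_) h1
  exact ⟨F v, hv, hF.left v⟩

theorem Aff.ae_inv (hF : Aff F G C A B) {p : P → Prop} (hp : ∀ᵐ v : P, p v) :
    ∀ᵐ y : P, p (G y) := by
  have h0 : volume {y : P | ¬ p y} = 0 := hp
  have h1 := lip_null hF.lipF h0
  rw [ae_iff]
  refine measure_mono_null (fun v hv => ?_) h1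
  exact ⟨G v, hv, hF.right v⟩

variable [Fintype J]

theorem integral_cel (hC : Cel D C) (hm : MeasurableSet D) {h : P → ℝ}
    (hi : IntegrableOn h D) : ∫ v in D, h v = ∑ j, ∫ v in C j, h v := by
  have h1 : D =ᵐ[volume] ⋃ j, C j := by
    refine Filter.EventuallyLE.antisymm ?_ ?_
    · have h2 := (ae_restrict_iff' hm).1 hC.ae
      filter_upwards [h2] with v hv hvT
      exact Set.mem_iUnion.2 (hv hvT)
    · refine Filter.Eventually.of_forall fun v hv => ?_
      obtain ⟨j, hj⟩ := Set.mem_iUnion.1 hv
      exact hC.sub j hj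
  rw [setIntegral_congr_set h1]
  exact integral_iUnion_fintype (fun j => hC.meas j) (fun i j hij => hC.disj i j hij)
    fun j => hi.mono_set (hC.sub j)

omit [Fintype J] in
theorem integral_img_cell (hC : Cel D C) (hF : Aff F G C A B) (j : J) (h : P → ℝ) :
    ∫ y in F '' C j, h y = det2 (A j) (B j) * ∫ v in C j, h (F v) := by
  rw [integral_image_eq_integral_abs_det_fderiv_smul volume (hC.meas j)
    (fun v hv => (hF.hasFDerivAt hC hv).hasFDerivWithinAt) hF.inj.injOn]
  simp only [linC_det, abs_of_pos (hF.det j), smul_eq_mul]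
  exact integral_const_mul _ _

theorem integral_img (hC : Cel D C) (hm : MeasurableSet D) (hF : Aff F G C A B) {h : P → ℝ}
    (hi : IntegrableOn h (F '' D)) :
    ∫ y in F '' D, h y = ∑ j, det2 (A j) (B j) * ∫ v in C j, h (F v) := by
  have h1 : F '' D =ᵐ[volume] ⋃ j, F '' C j := by
    refine Filter.EventuallyLE.antisymm ?_ ?_
    · have h2 := hF.ae_inv ((ae_restrict_iff' hm).1 hC.ae)
      filter_upwards [h2] with y hy hyD
      obtain ⟨v, hv, rfl⟩ := hyD
      rw [hF.left] at hy
      obtain ⟨j, hj⟩ := hy hv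
      exact Set.mem_iUnion.2 ⟨j, v, hj, rfl⟩
    · refine Filter.Eventually.of_forall fun v hv => ?_
      obtain ⟨j, hj⟩ := Set.mem_iUnion.1 hv
      exact Set.image_mono (hC.sub j) hj
  have hmeas : ∀ j, MeasurableSet (F '' C j) := fun j =>
    (hF.isOpen_image (hC.isOpen j)).measurableSet
  have hpair : Pairwise (Function.onFun Disjoint fun j => F '' C j) := by
    intro i j hij
    exact (Set.disjoint_image_iff hF.inj).2 (hC.disj i j hij)
  rw [setIntegral_congr_set h1, integral_iUnion_fintype hmeas hpair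
    fun j => hi.mono_set (Set.image_mono (hC.sub j))]
  exact Finset.sum_congr rfl fun j _ => integral_img_cell hC hF j h

end Pool.Agent.MP4eed4eX.L
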