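import Pool.Agent.Lib.MP_4eed4e_an_XL.LCel
import Pool.Agent.Lib.MP_4eed4e_an_PA.Df

set_option autoImplicit false

/-!
Project X, block L, module LChi: multiplication by the indicator functions of the cells
(as in `_PD/DChi`).
-/

namespace Pool.Agent.MP4eed4eX.L

open MeasureTheory Set Filter Topology Pool.Agent.MP4eed4eP

variable {D S : Set P}

private theorem lchi_ind (hS : MeasurableSet S) {f : P → ℝ} (hf : MemLp f 2 (muD D)) :
    MemLp (S.indicator f) 2 (muD D) := hf.indicator hS

private theorem lchi_congr {f g : P → ℝ} (h : f =ᵐ[muD D] g) :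
    S.indicator f =ᵐ[muD D] S.indicator g := by
  filter_upwards [h] with x hx
  by_cases hs : x ∈ S
  · simp only [Set.indicator_of_mem hs, hx]
  · simp only [Set.indicator_of_notMem hs]

private noncomputable def lchiLin (D : Set P) {S : Set P} (hS : MeasurableSet S) :
    LD D →ₗ[ℝ] LD D where
  toFun f := clD D (S.indicator (f : P → ℝ))
  map_add' f g := by
    have h1 := lchi_ind (D := D) hS (Lp.memLp f)
    have h2 := lchi_ind (D := D) hS (Lp.memLp g)
    rw [← clD_add h1 h2, ← Set.indicator_add']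
    exact clD_congr (lchi_ind hS (Lp.memLp (f + g))) (lchi_congr (Lp.coeFn_add f g))
  map_smul' r f := by
    have h1 := lchi_ind (D := D) hS (Lp.memLp f)
    have h2 : r • S.indicator (f : P → ℝ) = S.indicator (r • (f : P → ℝ)) :=
      (Set.indicator_const_smul S r (f : P → ℝ)).symm
    rw [RingHom.id_apply, ← clD_smul h1, h2]
    exact clD_congr (lchi_ind hS (Lp.memLp (r • f))) (lchi_congr (Lp.coeFn_smul r f))

private theorem lchi_norm (hS : MeasurableSet S) (f : LD D) : ‖lchiLin D hS f‖ ≤ 1 * ‖f‖ := by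
  have h1 := lchi_ind (D := D) hS (Lp.memLp f)
  change ‖clD D (S.indicator (f : P → ℝ))‖ ≤ 1 * ‖f‖
  rw [clD_of_memLp h1, one_mul, Lp.norm_toLp, Lp.norm_def]
  exact ENNReal.toReal_mono (Lp.memLp f).2.ne (eLpNorm_indicator_le _)

theorem exists_chiD (D S : Set P) : ∃ χ : LD D →L[ℝ] LD D, MeasurableSet S →
    ∀ f : P → ℝ, MemLp f 2 (muD D) → χ (clD D f) = clD D (S.indicator f) := by
  by_cases hS : MeasurableSet S
  · refine ⟨(lchiLin D hS).mkContinuous 1 (lchi_norm hS), fun _ f hf => ?_⟩
    rw [LinearMap.mkContinuous_apply]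
    change clD D (S.indicator (clD D f : P → ℝ)) = clD D (S.indicator f)
    exact clD_congr (lchi_ind hS (Lp.memLp (clD D f))) (lchi_congr (coeFn_clD hf))
  · exact ⟨0, fun h => absurd h hS⟩

/-- Multiplication by the indicator function of `S`. -/
noncomputable def chiD (D S : Set P) : LD D →L[ℝ] LD D := Classical.choose (exists_chiD D S)

theorem chi_clD (hS : MeasurableSet S) {f : P → ℝ} (hf : MemLp f 2 (muD D)) :
    chiD D S (clD D f) = clD D (S.indicator f) :=
  Classical.choose_spec (exists_chiD D S) hS f hf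

private theorem lchi_int (hS : MeasurableSet S) (hSD : S ⊆ D) (h : P → ℝ) :
    ∫ v in D, S.indicator h v = ∫ v in S, h v := by
  rw [integral_indicator hS, Measure.restrict_restrict hS, Set.inter_eq_left.2 hSD]

theorem inner_chiD (hS : MeasurableSet S) (hSD : S ⊆ D) {f g : P → ℝ}
    (hf : MemLp f 2 (muD D)) (hg : MemLp g 2 (muD D)) :
    (inner ℝ (chiD D S (clD D f)) (clD D g) : ℝ) = ∫ v in S, f v * g v := by
  rw [chi_clD hS hf, inner_clD (lchi_ind hS hf) hg, ← lchi_int hS hSD]
  congr 1
  ext v
  by_cases hs : v ∈ S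
  · simp only [Set.indicator_of_mem hs]
  · simp only [Set.indicator_of_notMem hs, zero_mul]

theorem norm_chiD (hS : MeasurableSet S) (hSD : S ⊆ D) {f : P → ℝ}
    (hf : MemLp f 2 (muD D)) : ‖chiD D S (clD D f)‖ ^ 2 = ∫ v in S, f v ^ 2 := by
  rw [chi_clD hS hf, ← real_inner_self_eq_norm_sq, inner_clD (lchi_ind hS hf) (lchi_ind hS hf),
    ← lchi_int hS hSD]
  congr 1
  ext v
  by_cases hs : v ∈ S
  · simp only [Set.indicator_of_mem hs, pow_two]
  · simp only [Set.indicator_of_notMem hs, zero_mul]

theorem chiD_apply (hS : MeasurableSet S) (f : LD D) :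
    chiD D S f = clD D (S.indicator (f : P → ℝ)) := by
  conv_lhs => rw [← clD_coe f]
  exact chi_clD hS (Lp.memLp f)

theorem cut_chiD {J : Type} [Fintype J] {C : J → Set P} (hC : Cel D C) :
    PA.Cut (fun j : J => chiD D (C j)) := by
  refine ⟨fun j f g => ?_, fun j f => ?_, fun i j hij f => ?_, fun f => ?_⟩
  · have h1 : (inner ℝ (chiD D (C j) f) g : ℝ) = ∫ v in C j, f v * g v := by
      have := inner_chiD (hC.meas j) (hC.sub j) (Lp.memLp f) (Lp.memLp g)
      rwa [clD_coe, clD_coe] at this
    have h2 : (inner ℝ (chiD D (C j) g) f : ℝ) = ∫ v in C j, g v * f v := by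
      have := inner_chiD (hC.meas j) (hC.sub j) (Lp.memLp g) (Lp.memLp f)
      rwa [clD_coe, clD_coe] at this
    rw [h1, real_inner_comm, h2]
    congr 1
    ext v
    ring
  · change chiD D (C j) (chiD D (C j) f) = chiD D (C j) f
    rw [chiD_apply (hC.meas j) f, chi_clD (hC.meas j) (lchi_ind (hC.meas j) (Lp.memLp f)),
      Set.indicator_indicator, Set.inter_self]
  · change chiD D (C i) (chiD D (C j) f) = 0
    rw [chiD_apply (hC.meas j) f, chi_clD (hC.meas i) (lchi_ind (hC.meas j) (Lp.memLp f)),
      Set.indicator_indicator, (hC.disj i j hij).inter_eq, Set.indicator_empty]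
    have h0 : MemLp (fun _ : P => (0 : ℝ)) 2 (muD D) := MemLp.zero
    rw [clD_of_memLp h0]
    exact MemLp.toLp_zero h0
  · change ∑ j, chiD D (C j) f = f
    have hsum : ∀ s : Finset J, MemLp (fun v => ∑ j ∈ s,
        (C j).indicator (f : P → ℝ) v) 2 (muD D) ∧ (∑ j ∈ s, chiD D (C j) f) =
        clD D (fun v => ∑ j ∈ s, (C j).indicator (f : P → ℝ) v) := by
      intro s
      classical
      induction s using Finset.induction_on with
      | empty =>
        refine ⟨by simp, ?_⟩
        have h0 : MemLp (fun _ : P => (0 : ℝ)) 2 (muD D) := MemLp.zero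
        simp only [Finset.sum_empty]
        rw [clD_of_memLp h0]
        exact (MemLp.toLp_zero h0).symm
      | insert a s ha ih =>
        obtain ⟨i1, i2⟩ := ih
        have e : (fun v => ∑ j ∈ insert a s, (C j).indicator (f : P → ℝ) v) =
            (C a).indicator (f : P → ℝ) +
              fun v => ∑ j ∈ s, (C j).indicator (f : P → ℝ) v := by
          ext v
          rw [Pi.add_apply, Finset.sum_insert ha]
        have h1 := lchi_ind (D := D) (hC.meas a) (Lp.memLp f)
        rw [e]
        refine ⟨h1.add i1, ?_⟩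
        rw [Finset.sum_insert ha, i2, clD_add h1 i1, chiD_apply (hC.meas a)]
    obtain ⟨i1, i2⟩ := hsum Finset.univ
    rw [i2]
    conv_rhs => rw [← clD_coe f]
    refine clD_congr i1 ?_
    filter_upwards [hC.ae] with v hv
    obtain ⟨j, hj⟩ := hv
    rw [Finset.sum_eq_single j]
    · exact Set.indicator_of_mem hj _
    · intro b _ hb
      exact Set.indicator_of_notMem
        (fun hvb => Set.disjoint_left.1 (hC.disj b j hb) hvb hj) _
    · intro h
      exact absurd (Finset.mem_univ j) h

end Pool.Agent.MP4eed4eX.L
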