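import Pool.Agent.Lib.MP_4eed4e_an_XL.LEmb

set_option autoImplicit false

/-!
Project X, block L, module LDen: density (as in `_PC/CDen.lean`).
-/

namespace Pool.Agent.MP4eed4eX.L

open MeasureTheory Set Filter Topology Pool.Agent.MP4eed4eP

variable (D : Set P) [DU D]

theorem dense_GD : (GD D).topologicalClosure = ⊤ := by
  rw [Submodule.eq_top_iff']
  intro g
  have h0 : g ∈ closure (GD D : Set (HD D)) := by
    rw [closure_subtype]
    have h1 : (LinearMap.range (grdD D) : Set (VD D)) ⊆ Subtype.val '' (GD D : Set (HD D)) := by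
      rintro _ ⟨f, rfl⟩
      exact ⟨gHD f, gHD_mem f, rfl⟩
    exact closure_mono h1 g.2
  exact h0

theorem dense_ED : DenseRange (ioD D) := by
  have hperp : (LinearMap.range (valD D))ᗮ = ⊥ := by
    rw [Submodule.eq_bot_iff]
    intro g hg
    have hgm : MemLp (g : P → ℝ) 2 (muD D) := Lp.memLp g
    have hgi : IntegrableOn (g : P → ℝ) D volume := hgm.integrable (by norm_num)
    have h1 : ∀ᵐ x : P, x ∈ D → (g : P → ℝ) x = 0 := by
      refine (isOpen_DU D).ae_eq_zero_of_integral_contDiff_smul_eq_zero
        hgi.locallyIntegrableOn fun f hf1 hf2 hf3 => ?_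
      have hL : LipC D f := ⟨hf1.lipschitzWith_of_hasCompactSupport hf2 (by simp), hf2, hf3⟩
      have h2 : (inner ℝ (valD D ⟨f, hL⟩) g : ℝ) = 0 :=
        (Submodule.mem_orthogonal _ g).1 hg _ ⟨⟨f, hL⟩, rfl⟩
      have h3 : (inner ℝ (valD D ⟨f, hL⟩) g : ℝ) = ∫ x in D, f x • (g : P → ℝ) x := by
        rw [L2.inner_def]
        refine integral_congr_ae ?_
        have h4 : (valD D ⟨f, hL⟩ : LD D) =ᵐ[muD D] f := coeFn_clD (lipC_memLpD hL)
        filter_upwards [h4] with x hx
        rw [hx]
        simp [mul_comm]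
      rw [h3, setIntegral_eq_integral_of_forall_compl_eq_zero] at h2
      · exact h2
      · intro x hx
        have : f x = 0 := image_eq_zero_of_notMem_tsupport fun h => hx (hf3 h)
        rw [this, zero_smul]
    have h5 : (g : P → ℝ) =ᵐ[muD D] 0 := by
      rw [Filter.EventuallyEq, ae_restrict_iff' (measurableSet_DU D)]
      exact h1
    exact (Lp.eq_zero_iff_ae_eq_zero).2 h5
  have hd : (LinearMap.range (valD D)).topologicalClosure = ⊤ :=
    Submodule.topologicalClosure_eq_top_iff.2 hperp
  intro g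
  have h1 : g ∈ (LinearMap.range (valD D)).topologicalClosure := by
    rw [hd]
    exact Submodule.mem_top
  have h2 : (LinearMap.range (valD D) : Set (LD D)) ⊆ range (ioD D) := by
    rintro _ ⟨f, rfl⟩
    exact ⟨gHD f, ioD_gHD f⟩
  exact closure_mono h2 h1

/-- A nonempty open subset of the plane is not null; a ball inside `D`. -/
private theorem CDen_ball : ∃ x : P, ∃ r : ℝ, 0 < r ∧ Metric.ball x r ⊆ D := by
  obtain ⟨x, hx⟩ := (DU.ne : D.Nonempty)
  obtain ⟨r, hr, h⟩ := Metric.isOpen_iff.1 (isOpen_DU D) x hx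
  exact ⟨x, r, hr, h⟩

/-- The strips. -/
private def CDenS (x : P) (r : ℝ) (n : ℕ) : Set P :=
  {v | v ∈ Metric.ball x r ∧ x.1 + r / ((n : ℝ) + 3) < v.1 ∧ v.1 < x.1 + r / ((n : ℝ) + 2)}

private theorem CDen_open (x : P) (r : ℝ) (n : ℕ) : IsOpen (CDenS x r n) :=
  Metric.isOpen_ball.inter ((isOpen_lt continuous_const continuous_fst).inter
    (isOpen_lt continuous_fst continuous_const))

private theorem CDen_ne {x : P} {r : ℝ} (hr : 0 < r) (n : ℕ) : (CDenS x r n).Nonempty := by
  have hn : (0 : ℝ) ≤ n := Nat.cast_nonneg n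
  have h1 : r / ((n : ℝ) + 3) < r / ((n : ℝ) + 2) :=
    div_lt_div_of_pos_left hr (by positivity) (by linarith)
  obtain ⟨a, ha1, ha2⟩ := exists_between h1
  have ha0 : 0 < a := lt_trans (by positivity) ha1
  have ha3 : a < r := lt_of_lt_of_le ha2 (by
    rw [div_le_iff₀ (by positivity)]
    nlinarith)
  refine ⟨(x.1 + a, x.2), ?_, ?_, ?_⟩
  · rw [Metric.mem_ball, Prod.dist_eq, Real.dist_eq, Real.dist_eq]
    simp only [add_sub_cancel_left, sub_self, abs_zero]
    rw [abs_of_pos ha0]
    exact max_lt ha3 hr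
  · show x.1 + r / ((n : ℝ) + 3) < x.1 + a
    linarith
  · show x.1 + a < x.1 + r / ((n : ℝ) + 2)
    linarith

private theorem CDen_disj {x : P} {r : ℝ} (hr : 0 < r) {i j : ℕ} (h : i < j) (v : P)
    (hi : v ∈ CDenS x r i) (hj : v ∈ CDenS x r j) : False := by
  have h1 := hi.2.1
  have h2 := hj.2.2
  have h3 : r / ((j : ℝ) + 2) ≤ r / ((i : ℝ) + 3) := by
    apply div_le_div_of_nonneg_left hr.le (by positivity)
    have : ((i + 1 : ℕ) : ℝ) ≤ j := Nat.cast_le.2 h
    push_cast at this
    linarith
  linarith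

theorem inf_LD : ¬ FiniteDimensional ℝ (LD D) := by
  intro hfin
  obtain ⟨x, r, hr, hsub⟩ := CDen_ball D
  have hS : ∀ n, CDenS x r n ⊆ D := fun n v hv => hsub hv.1
  have hmem : ∀ n, MemLp ((CDenS x r n).indicator fun _ : P => (1 : ℝ)) 2 (muD D) := by
    intro n
    refine memLp_bddD (measurable_const.indicator (CDen_open x r n).measurableSet) (C := 1)
      fun v => ?_
    by_cases hv : v ∈ CDenS x r n
    · simp [hv]
    · simp [hv]
  have hpos : ∀ n, 0 < volume.real (CDenS x r n) := fun n =>
    ENNReal.toReal_pos ((CDen_open x r n).measure_pos volume (CDen_ne hr n)).ne'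
      (ne_of_lt ((measure_mono (hS n)).trans_lt (volume_DU_lt_top D)))
  have hli : LinearIndependent ℝ
      (fun n : ℕ => clD D ((CDenS x r n).indicator fun _ : P => (1 : ℝ))) := by
    refine linearIndependent_of_ne_zero_of_inner_eq_zero (𝕜 := ℝ) (fun n h0 => ?_)
      fun i j hij => ?_
    · have h1 := inner_clD (hmem n) (hmem n)
      rw [h0, inner_zero_left] at h1
      have h2 : (∫ v in D, (CDenS x r n).indicator (fun _ : P => (1 : ℝ)) v *
          (CDenS x r n).indicator (fun _ : P => (1 : ℝ)) v) = volume.real (CDenS x r n) := by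
        have h3 : (fun v : P => (CDenS x r n).indicator (fun _ : P => (1 : ℝ)) v *
            (CDenS x r n).indicator (fun _ : P => (1 : ℝ)) v) =
            (CDenS x r n).indicator fun _ : P => (1 : ℝ) := by
          funext v
          by_cases hv : v ∈ CDenS x r n
          · simp [hv]
          · simp [hv]
        rw [h3, setIntegral_indicator (CDen_open x r n).measurableSet,
          inter_eq_self_of_subset_right (hS n)]
        simp
      rw [h2] at h1
      exact (hpos n).ne h1
    · have h1 := inner_clD (hmem i) (hmem j)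
      show (inner ℝ (clD D ((CDenS x r i).indicator fun _ : P => (1 : ℝ)))
        (clD D ((CDenS x r j).indicator fun _ : P => (1 : ℝ))) : ℝ) = 0
      rw [h1]
      have h3 : (fun v : P => (CDenS x r i).indicator (fun _ : P => (1 : ℝ)) v *
          (CDenS x r j).indicator (fun _ : P => (1 : ℝ)) v) = fun _ => 0 := by
        funext v
        by_cases hv : v ∈ CDenS x r i
        · by_cases hv' : v ∈ CDenS x r j
          · exfalso
            rcases lt_or_gt_of_ne hij with h | h
            · exact CDen_disj hr h v hv hv'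
            · exact CDen_disj hr h v hv' hv
          · simp [hv']
        · simp [hv]
      rw [h3]
      simp
  exact not_finite_iff_infinite.2 inferInstance hli.finite

end Pool.Agent.MP4eed4eX.L
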