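import Pool.Agent.Lib.MP_4eed4e_an_XL.LBes
import Pool.Agent.Lib.MP_4eed4e_an_PC.CAz

set_option autoImplicit false

/-!
Project X, block L, module LEmb: the embedding `HD D → LD D`.
-/

namespace Pool.Agent.MP4eed4eX.L

open MeasureTheory Set Filter Topology Pool.Agent.MP4eed4eP

theorem exists_ED (D : Set P) [DU D] : ∃ (io : HD D →L[ℝ] LD D) (k : ℕ × ℕ → HD D),
    PA.Emb io (sD D) k lT ∧ ∀ (f : LipS D) (h : grdD D f ∈ HD D), io ⟨grdD D f, h⟩ = valD D f :=
  exists_emb (valD D) (grdD D) (sD D) lT (kD D) frame_sD adj_sD bessel_kD sum4_lT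

/-- The embedding of the region. -/
noncomputable def ioD (D : Set P) [DU D] : HD D →L[ℝ] LD D := Classical.choose (exists_ED D)

/-- The Bessel family. -/
noncomputable def kHD (D : Set P) [DU D] : ℕ × ℕ → HD D :=
  Classical.choose (Classical.choose_spec (exists_ED D))

theorem emb_D (D : Set P) [DU D] : PA.Emb (ioD D) (sD D) (kHD D) lT :=
  (Classical.choose_spec (Classical.choose_spec (exists_ED D))).1

variable {D : Set P} [DU D]

theorem ioD_gHD (f : LipS D) : ioD D (gHD f) = valD D f :=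
  (Classical.choose_spec (Classical.choose_spec (exists_ED D))).2 f (grdD_mem f)

/-- The range of the gradient map inside `HD D`. -/
noncomputable def GD (D : Set P) [DU D] : Submodule ℝ (HD D) :=
  (LinearMap.range (grdD D)).comap (HD D).subtype

theorem gHD_mem (f : LipS D) : gHD f ∈ GD D := ⟨f, rfl⟩

theorem mem_GD {g : HD D} : g ∈ GD D ↔ ∃ f : LipS D, gHD f = g := by
  constructor
  · rintro ⟨f, hf⟩
    exact ⟨f, Subtype.ext hf⟩
  · rintro ⟨f, rfl⟩
    exact gHD_mem f

end Pool.Agent.MP4eed4eX.L
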