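import Pool.Agent.Lib.MP_4eed4e_an_XL.LCel

set_option autoImplicit false

/-!
Project X, block L, module LForm: composition with `F`, the forms on the cells
(as in `_PD/DPul, DGra, DFrm`).
-/

namespace Pool.Agent.MP4eed4eX.L

open MeasureTheory Set Filter Topology Pool.Agent.MP4eed4eP

/-- Scalar product of two vectors of the plane. -/
def dt (v w : P) : ℝ := v.1 * w.1 + v.2 * w.2

/-- Coefficients of the forms. -/
noncomputable def n11 (a b : P) : ℝ := dt b b / det2 a b

/-- Coefficients of the forms. -/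
noncomputable def n12 (a b : P) : ℝ := -dt a b / det2 a b

/-- Coefficients of the forms. -/
noncomputable def n22 (a b : P) : ℝ := dt a a / det2 a b

variable {D : Set P} {J : Type} {C : J → Set P} {F G : P → P} {A B : J → P}

/-- The energy form on the region (for pairs of functions). -/
noncomputable def eform [Fintype J] (C : J → Set P) (A B : J → P) (f1 f2 g1 g2 : P → ℝ) : ℝ :=
  ∑ j, ∫ v in C j, (n11 (A j) (B j) * (f1 v * g1 v) +
    n12 (A j) (B j) * (f1 v * g2 v + f2 v * g1 v) + n22 (A j) (B j) * (f2 v * g2 v))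

/-- The mass form on the region. -/
noncomputable def mform [Fintype J] (C : J → Set P) (A B : J → P) (f g : P → ℝ) : ℝ :=
  ∑ j, det2 (A j) (B j) * ∫ v in C j, f v * g v

private theorem lipC_aux {D E : Set P} {f : P → ℝ} {H K : P → P} (hH : ∃ L, LipschitzWith L H)
    (hK : ∃ L, LipschitzWith L K) (h : ∀ x, K (H x) = x) (hD : H ⁻¹' D ⊆ E)
    (hf : LipC D f) : LipC E (fun v => f (H v)) := by
  obtain ⟨L, hL⟩ := hH
  obtain ⟨L', hL'⟩ := hK
  obtain ⟨⟨M, hM⟩, h1, h2⟩ := hf
  have h3 : tsupport (fun v => f (H v)) ⊆ H ⁻¹' tsupport f :=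
    closure_minimal (fun v hv => subset_tsupport f hv)
      ((isClosed_tsupport f).preimage hL.continuous)
  have h4 : H ⁻¹' tsupport f ⊆ K '' tsupport f := fun v hv => ⟨H v, hv, h v⟩
  refine ⟨⟨M * L, hM.comp hL⟩, ?_, ?_⟩
  · exact HasCompactSupport.of_support_subset_isCompact (h1.isCompact.image hL'.continuous)
      ((subset_tsupport _).trans (h3.trans h4))
  · exact h3.trans ((Set.preimage_mono h2).trans hD)

theorem lipC_comp (hF : Aff F G C A B) {f : P → ℝ} (hf : LipC (F '' D) f) :
    LipC D (fun v => f (F v)) := by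
  refine lipC_aux hF.lipF hF.lipG hF.left ?_ hf
  rw [Set.preimage_image_eq D hF.inj]

theorem lipC_comp' (hF : Aff F G C A B) {g : P → ℝ} (hg : LipC D g) :
    LipC (F '' D) (fun y => g (G y)) := by
  refine lipC_aux hF.lipG hF.lipF hF.right ?_ hg
  rw [hF.image_eq]

theorem fderiv_comp_aff (hC : Cel D C) (hF : Aff F G C A B) {j : J} {v : P} (hv : v ∈ C j)
    {f : P → ℝ} (hf : DifferentiableAt ℝ f (F v)) (w : P) :
    fderiv ℝ (fun v => f (F v)) v w = fderiv ℝ f (F v) (w.1 • A j + w.2 • B j) := by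
  have h1 := hf.hasFDerivAt.comp v (hF.hasFDerivAt hC hv)
  have h2 : fderiv ℝ (fun v => f (F v)) v = (fderiv ℝ f (F v)).comp (linC (A j) (B j)) :=
    h1.fderiv
  rw [h2]
  rfl

theorem fderiv_apply_d (f : P → ℝ) (x w : P) :
    fderiv ℝ f x w = w.1 * d1 f x + w.2 * d2 f x := by
  have h : w = w.1 • ((1 : ℝ), (0 : ℝ)) + w.2 • ((0 : ℝ), (1 : ℝ)) := by
    ext <;> simp
  conv_lhs => rw [h]
  rw [map_add, map_smul, map_smul]
  rfl

theorem d1_aff (hC : Cel D C) (hF : Aff F G C A B) {j : J} {v : P} (hv : v ∈ C j)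
    {f : P → ℝ} (hf : DifferentiableAt ℝ f (F v)) :
    d1 (fun v => f (F v)) v = (A j).1 * d1 f (F v) + (A j).2 * d2 f (F v) := by
  rw [d1, fderiv_comp_aff hC hF hv hf, fderiv_apply_d]
  simp

theorem d2_aff (hC : Cel D C) (hF : Aff F G C A B) {j : J} {v : P} (hv : v ∈ C j)
    {f : P → ℝ} (hf : DifferentiableAt ℝ f (F v)) :
    d2 (fun v => f (F v)) v = (B j).1 * d1 f (F v) + (B j).2 * d2 f (F v) := by
  rw [d2, fderiv_comp_aff hC hF hv hf, fderiv_apply_d]
  simp

private theorem form_alg {a b : P} (hJ : det2 a b ≠ 0) (p q r s : ℝ) :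
    det2 a b * (p * r + q * s) =
      n11 a b * ((a.1 * p + a.2 * q) * (a.1 * r + a.2 * s)) +
      n12 a b * ((a.1 * p + a.2 * q) * (b.1 * r + b.2 * s) +
        (b.1 * p + b.2 * q) * (a.1 * r + a.2 * s)) +
      n22 a b * ((b.1 * p + b.2 * q) * (b.1 * r + b.2 * s)) := by
  have h : det2 a b = a.1 * b.2 - a.2 * b.1 := rfl
  have h1 : det2 a b * n11 a b = dt b b := by
    rw [n11, mul_div_cancel₀ _ hJ]
  have h2 : det2 a b * n12 a b = -dt a b := by
    rw [n12, mul_div_cancel₀ _ hJ]
  have h3 : det2 a b * n22 a b = dt a a := by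
    rw [n22, mul_div_cancel₀ _ hJ]
  apply mul_left_cancel₀ hJ
  have e : det2 a b * (n11 a b * ((a.1 * p + a.2 * q) * (a.1 * r + a.2 * s)) +
      n12 a b * ((a.1 * p + a.2 * q) * (b.1 * r + b.2 * s) +
        (b.1 * p + b.2 * q) * (a.1 * r + a.2 * s)) +
      n22 a b * ((b.1 * p + b.2 * q) * (b.1 * r + b.2 * s))) =
      (det2 a b * n11 a b) * ((a.1 * p + a.2 * q) * (a.1 * r + a.2 * s)) +
      (det2 a b * n12 a b) * ((a.1 * p + a.2 * q) * (b.1 * r + b.2 * s) +
        (b.1 * p + b.2 * q) * (a.1 * r + a.2 * s)) +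
      (det2 a b * n22 a b) * ((b.1 * p + b.2 * q) * (b.1 * r + b.2 * s)) := by
    ring
  rw [e, h1, h2, h3, h, dt, dt, dt]
  ring

variable [Fintype J]

theorem en_eq_eform (hC : Cel D C) (hm : MeasurableSet D) (hb : Bornology.IsBounded D)
    (hF : Aff F G C A B) {f : P → ℝ} (hf : LipC (F '' D) f) :
    en f = eform C A B (d1 (fun v => f (F v))) (d2 (fun v => f (F v)))
      (d1 (fun v => f (F v))) (d2 (fun v => f (F v))) := by
  obtain ⟨K, hK⟩ := id hf.1
  have h1 : en f = ∫ y in F '' D, (d1 f y * d1 f y + d2 f y * d2 f y) := by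
    rw [en, ← setIntegral_eq_integral_of_forall_compl_eq_zero (s := F '' D)]
    · refine integral_congr_ae (Eventually.of_forall fun y => ?_)
      dsimp only
      ring
    · intro x hx
      have h2 : x ∉ tsupport f := fun h => hx (hf.2.2 h)
      rw [d1_zero_of_notMem h2, d2_zero_of_notMem h2]
      norm_num
  have hi : IntegrableOn (fun y => d1 f y * d1 f y + d2 f y * d2 f y) (F '' D) := by
    refine Measure.integrableOn_of_bounded (M := K * K + K * K)
      (hF.bdd_image hb).measure_lt_top.ne ?_ ?_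
    · exact (((measurable_d1 f).mul (measurable_d1 f)).add
        ((measurable_d2 f).mul (measurable_d2 f))).aestronglyMeasurable
    · refine Eventually.of_forall fun y => ?_
      rw [Real.norm_eq_abs]
      refine (abs_add_le _ _).trans (add_le_add ?_ ?_)
      · rw [abs_mul]
        exact mul_le_mul (abs_d1_le hK y) (abs_d1_le hK y) (abs_nonneg _) K.coe_nonneg
      · rw [abs_mul]
        exact mul_le_mul (abs_d2_le hK y) (abs_d2_le hK y) (abs_nonneg _) K.coe_nonneg
  rw [h1, integral_img hC hm hF hi, eform]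
  refine Finset.sum_congr rfl fun j _ => ?_
  have hJ := (hF.det j).ne'
  rw [← integral_const_mul]
  refine integral_congr_ae ?_
  filter_upwards [ae_restrict_of_ae (hF.ae_comp (ae_diff hK)),
    ae_restrict_mem (hC.meas j)] with v h2 h3
  rw [d1_aff hC hF h3 h2, d2_aff hC hF h3 h2]
  exact form_alg hJ _ _ _ _

theorem l2_eq_mform (hC : Cel D C) (hm : MeasurableSet D) (hF : Aff F G C A B) {f : P → ℝ}
    (hf : LipC (F '' D) f) :
    l2 f = mform C A B (fun v => f (F v)) (fun v => f (F v)) := by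
  have h1 : l2 f = ∫ y in F '' D, f y * f y := by
    rw [l2, ← setIntegral_eq_integral_of_forall_compl_eq_zero (s := F '' D)]
    · refine integral_congr_ae (Eventually.of_forall fun y => ?_)
      dsimp only
      ring
    · intro x hx
      have h2 : x ∉ tsupport f := fun h => hx (hf.2.2 h)
      rw [image_eq_zero_of_notMem_tsupport h2]
      norm_num
  have hi : IntegrableOn (fun y => f y * f y) (F '' D) := by
    have h2 : Integrable (fun y => f y * f y) :=
      (hf.continuous.mul hf.continuous).integrable_of_hasCompactSupport hf.2.1.mul_left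
    exact h2.integrableOn
  rw [h1, integral_img hC hm hF hi, mform]

end Pool.Agent.MP4eed4eX.L
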