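import Pool.Agent.Lib.MP_4eed4e_an_XL.LOp
import Pool.Agent.Lib.MP_4eed4e_an_PC.CForm
import Pool.Agent.Lib.MP_4eed4e_an_PA.OutA

set_option autoImplicit false

/-!
Project X, block L, module LLam: the min-max values of `F '' D` are those of the operators; the
sums of the powers are traces (as in `_PD/DLam`, `_PD/DMain`).
-/

namespace Pool.Agent.MP4eed4eX.L

open MeasureTheory Set Filter Topology Pool.Agent.MP4eed4eP

variable {D : Set P} [DU D] {J : Type} [Fintype J] {C : J → Set P} {F G : P → P} {A B : J → P}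

omit [Fintype J] in
/-- The composition with `F` followed by the gradient. -/
private noncomputable def PhiX (hF : Aff F G C A B) : LipS (F '' D) →ₗ[ℝ] HD D where
  toFun f := gHD ⟨fun v => f.1 (F v), lipC_comp hF f.2⟩
  map_add' f g := by
    have h : (⟨fun v => (f + g).1 (F v), lipC_comp hF (f + g).2⟩ : LipS D) =
        ⟨fun v => f.1 (F v), lipC_comp hF f.2⟩ + ⟨fun v => g.1 (F v), lipC_comp hF g.2⟩ :=
      Subtype.ext rfl
    rw [h]
    exact Subtype.ext (map_add (grdD D) _ _)
  map_smul' r f := by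
    have h : (⟨fun v => (r • f).1 (F v), lipC_comp hF (r • f).2⟩ : LipS D) =
        r • ⟨fun v => f.1 (F v), lipC_comp hF f.2⟩ :=
      Subtype.ext rfl
    rw [h]
    exact Subtype.ext (map_smul (grdD D) _ _)

omit [Fintype J] in
private theorem PhiX_apply (hF : Aff F G C A B) (f : LipS (F '' D)) :
    PhiX hF f = gHD ⟨fun v => f.1 (F v), lipC_comp hF f.2⟩ := rfl

private theorem bdd_DU (D : Set P) [DU D] : Bornology.IsBounded D :=
  (isCompact_Icc.prod isCompact_Icc).isBounded.subset ((DU_subset D).trans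
    (prod_mono Ioo_subset_Icc_self Ioo_subset_Icc_self))

private theorem PhiX_en (hC : Cel D C) (hF : Aff F G C A B) (f : LipS (F '' D)) :
    (inner ℝ (AD D C A B (PhiX hF f)) (PhiX hF f) : ℝ) = en f.1 := by
  obtain ⟨⟨K, hK⟩, -, -⟩ := lipC_comp hF f.2
  rw [inner_AD, en_eq_eform hC (measurableSet_DU D) (bdd_DU D) hF f.2]
  exact inner_MD hC A B (memLp_d1D hK) (memLp_d2D hK) (memLp_d1D hK) (memLp_d2D hK)

private theorem PhiX_l2 (hC : Cel D C) (hF : Aff F G C A B) (f : LipS (F '' D)) :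
    ‖RD D C A B (ioD D (PhiX hF f))‖ ^ 2 = l2 f.1 := by
  rw [PhiX_apply, ioD_gHD, l2_eq_mform hC (measurableSet_DU D) hF f.2]
  exact RD_sq hC hF.det (lipC_memLpD (lipC_comp hF f.2))

private theorem PhiX_inj (hC : Cel D C) (hF : Aff F G C A B) :
    Function.Injective (PhiX (D := D) hF) := by
  rw [← LinearMap.ker_eq_bot, LinearMap.ker_eq_bot']
  intro f hf
  by_contra hne
  have h1 : f.1 ≠ 0 := fun h => hne (Subtype.ext h)
  have h2 := l2_pos f.2 h1
  rw [← PhiX_l2 hC hF f, hf, map_zero, map_zero, norm_zero] at h2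
  norm_num at h2

omit [Fintype J] in
private theorem PhiX_range (hF : Aff F G C A B) : LinearMap.range (PhiX (D := D) hF) = GD D := by
  ext g
  rw [mem_GD, LinearMap.mem_range]
  constructor
  · rintro ⟨f, rfl⟩
    exact ⟨_, (PhiX_apply hF f).symm⟩
  · rintro ⟨p, rfl⟩
    refine ⟨⟨fun y => p.1 (G y), lipC_comp' hF p.2⟩, ?_⟩
    rw [PhiX_apply]
    congr 1
    refine Subtype.ext ?_
    funext v
    show p.1 (G (F v)) = p.1 v
    rw [hF.left]

theorem lamL_img (hC : Cel D C) (hF : Aff F G C A B) (k : ℕ) :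
    lamL (F '' D) k = PA.mm (ioD D) (AD D C A B) (RD D C A B) (GD D) k := by
  unfold lamL PA.mm
  congr 1
  ext r
  constructor
  · rintro ⟨V, hV, h⟩
    have hle : V ≤ LipS (F '' D) := fun f hf => (h f hf).1
    refine ⟨(V.comap (LipS (F '' D)).subtype).map (PhiX hF), ?_, ?_, ?_⟩
    · rw [← PhiX_range hF]
      exact LinearMap.map_le_range
    · rw [← hV, ← (Submodule.equivMapOfInjective (PhiX hF) (PhiX_inj hC hF)
        (V.comap (LipS (F '' D)).subtype)).finrank_eq]
      exact (Submodule.comapSubtypeEquivOfLe hle).finrank_eq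
    · rintro w ⟨f, hf, rfl⟩
      rw [PhiX_en hC hF f, PhiX_l2 hC hF f]
      exact (h f.1 hf).2
  · rintro ⟨V, hV, hk, h⟩
    refine ⟨(V.comap (PhiX hF)).map (LipS (F '' D)).subtype, ?_, ?_⟩
    · rw [← (Submodule.equivMapOfInjective (LipS (F '' D)).subtype
        (LipS (F '' D)).injective_subtype (V.comap (PhiX hF))).finrank_eq,
        (Submodule.equivMapOfInjective (PhiX hF) (PhiX_inj hC hF)
        (V.comap (PhiX hF))).finrank_eq, Submodule.map_comap_eq_self, hk]
      rw [PhiX_range hF]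
      exact hV
    · rintro f ⟨f', hf', rfl⟩
      refine ⟨f'.2, ?_⟩
      have h1 := h (PhiX hF f') hf'
      rw [PhiX_en hC hF f', PhiX_l2 hC hF f'] at h1
      exact h1

theorem hasSum_img (hC : Cel D C) (hF : Aff F G C A B) :
    (∀ n, 0 < lamL (F '' D) (n + 1)) ∧
    Monotone (fun n => lamL (F '' D) (n + 1)) ∧
    Tendsto (fun n => lamL (F '' D) (n + 1)) atTop atTop ∧
    ∀ a : ℕ, 1 ≤ a → HasSum (fun n => (lamL (F '' D) (n + 1))⁻¹ ^ (2 * a))
      (PA.trc (sD D) (PA.SS (ioD D) (AD D C A B) (RD D C A B)) a) := by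
  simp only [lamL_img hC hF]
  refine PA.hasSum_mm (emb_D D) (fun f hf => ?_) (inf_LD D) (cut_chiD hC)
    (fun j => Real.sqrt_pos.2 (hF.det j)) (coer_AD hC hF.det)
    (Submodule.dense_iff_topologicalClosure_eq_top.2 (dense_GD D))
  have h1 : Continuous fun g : LD D => (inner ℝ f g : ℝ) := continuous_const.inner continuous_id
  have h2 : (fun g : LD D => (inner ℝ f g : ℝ)) = fun _ => 0 := by
    refine (dense_ED D).equalizer h1 continuous_const (funext fun g => ?_)
    change (inner ℝ f (ioD D g) : ℝ) = 0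
    rw [← ContinuousLinearMap.adjoint_inner_left, hf, inner_zero_left]
  exact inner_self_eq_zero.1 (congrFun h2 f)

theorem fa_img (hC : Cel D C) (hF : Aff F G C A B) {a : ℕ} (ha : 1 ≤ a) :
    fa a (F '' D) = PA.trc (sD D) (PA.SS (ioD D) (AD D C A B) (RD D C A B)) a :=
  ((hasSum_img hC hF).2.2.2 a ha).tsum_eq

end Pool.Agent.MP4eed4eX.L
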