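import Pool.Agent.Lib.MP_4eed4e_an_XL.LChi
import Pool.Agent.Lib.MP_4eed4e_an_XL.LForm
import Pool.Agent.Lib.MP_4eed4e_an_XL.LDen
import Pool.Agent.Lib.MP_4eed4e_an_PA.Coe

set_option autoImplicit false

/-!
Project X, block L, module LOp: the operators of the forms (as in `_PD/DOp`).
-/

namespace Pool.Agent.MP4eed4eX.L

open MeasureTheory Set Filter Topology Pool.Agent.MP4eed4eP

/-- `VD D` as a product. -/
noncomputable def eVD (D : Set P) : VD D ≃L[ℝ] (LD D × LD D) :=
  WithLp.prodContinuousLinearEquiv 2 ℝ (LD D) (LD D)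

/-- `(g1, g2) ↦ (χ g1, 0)`. -/
noncomputable def Y11 (D S : Set P) : VD D →L[ℝ] VD D :=
  ((eVD D).symm : (LD D × LD D) →L[ℝ] VD D) ∘L
    ((chiD D S ∘L ContinuousLinearMap.fst ℝ (LD D) (LD D)).prod 0) ∘L
      (eVD D : VD D →L[ℝ] (LD D × LD D))

/-- `(g1, g2) ↦ (χ g2, χ g1)`. -/
noncomputable def Y12 (D S : Set P) : VD D →L[ℝ] VD D :=
  ((eVD D).symm : (LD D × LD D) →L[ℝ] VD D) ∘L
    ((chiD D S ∘L ContinuousLinearMap.snd ℝ (LD D) (LD D)).prod
      (chiD D S ∘L ContinuousLinearMap.fst ℝ (LD D) (LD D))) ∘L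
        (eVD D : VD D →L[ℝ] (LD D × LD D))

/-- `(g1, g2) ↦ (0, χ g2)`. -/
noncomputable def Y22 (D S : Set P) : VD D →L[ℝ] VD D :=
  ((eVD D).symm : (LD D × LD D) →L[ℝ] VD D) ∘L
    ((0 : (LD D × LD D) →L[ℝ] LD D).prod
      (chiD D S ∘L ContinuousLinearMap.snd ℝ (LD D) (LD D))) ∘L
        (eVD D : VD D →L[ℝ] (LD D × LD D))

variable {J : Type} [Fintype J]

/-- Multiplication by the matrices on the cells. -/
noncomputable def MD (D : Set P) (C : J → Set P) (A B : J → P) : VD D →L[ℝ] VD D :=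
  ∑ j, (n11 (A j) (B j) • Y11 D (C j) + n12 (A j) (B j) • Y12 D (C j) +
    n22 (A j) (B j) • Y22 D (C j))

/-- The operator of the energy form on `HD D`. -/
noncomputable def AD (D : Set P) [DU D] (C : J → Set P) (A B : J → P) : HD D →L[ℝ] HD D :=
  (HD D).orthogonalProjection ∘L MD D C A B ∘L (HD D).subtypeL

/-- The weight operator. -/
noncomputable def RD (D : Set P) (C : J → Set P) (A B : J → P) : LD D →L[ℝ] LD D :=
  PA.RR (fun j : J => chiD D (C j)) (fun j => √(det2 (A j) (B j)))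

/-! ### auxiliary lemmas -/

section

variable {D S : Set P}

omit [Fintype J] in
private theorem lop_Y11 (f1 f2 : P → ℝ) :
    Y11 D S (prD D f1 f2) = (WithLp.toLp 2 (chiD D S (clD D f1), (0 : LD D)) : VD D) := rfl

omit [Fintype J] in
private theorem lop_Y12 (f1 f2 : P → ℝ) :
    Y12 D S (prD D f1 f2) =
      (WithLp.toLp 2 (chiD D S (clD D f2), chiD D S (clD D f1)) : VD D) := rfl

omit [Fintype J] in
private theorem lop_Y22 (f1 f2 : P → ℝ) :
    Y22 D S (prD D f1 f2) = (WithLp.toLp 2 ((0 : LD D), chiD D S (clD D f2)) : VD D) := rfl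

private theorem lop_int (hSD : S ⊆ D) {f g : P → ℝ} (hf : MemLp f 2 (muD D))
    (hg : MemLp g 2 (muD D)) : Integrable (fun v => f v * g v) (volume.restrict S) :=
  (hf.integrable_mul hg).mono_measure (Measure.restrict_mono hSD le_rfl)

/-- The matrices are positive definite with determinant `1`. -/
private theorem lop_det {a b : P} (hJ : 0 < det2 a b) :
    n11 a b * n22 a b - n12 a b ^ 2 = 1 ∧ 0 < n11 a b + n22 a b := by
  have h1 : det2 a b = a.1 * b.2 - a.2 * b.1 := rfl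
  constructor
  · unfold n11 n12 n22 dt
    rw [div_mul_div_comm, div_pow, ← pow_two (det2 a b), ← sub_div,
      div_eq_one_iff_eq (by positivity), h1]
    ring
  · unfold n11 n22 dt
    rw [← add_div]
    refine div_pos ?_ hJ
    rcases eq_or_ne a.1 0 with h2 | h2
    · have h3 : a.2 ≠ 0 := by
        intro h3
        rw [h2, h3] at h1
        rw [h1] at hJ
        simp at hJ
      have h4 := mul_self_pos.2 h3
      nlinarith [mul_self_nonneg a.1, mul_self_nonneg b.1, mul_self_nonneg b.2]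
    · have h4 := mul_self_pos.2 h2
      nlinarith [mul_self_nonneg a.2, mul_self_nonneg b.1, mul_self_nonneg b.2]

private theorem lop_quad {a b d q x y : ℝ} (h : a * d - b ^ 2 = 1) (hq : 0 < a + d)
    (hq2 : q * (a + d) ≤ 1) (hq0 : 0 ≤ q) :
    q * (x * x + y * y) ≤ a * (x * x) + b * (x * y + y * x) + d * (y * y) := by
  have h1 : (a + d) * (a * (x * x) + b * (x * y + y * x) + d * (y * y)) =
      (a * x + b * y) ^ 2 + (b * x + d * y) ^ 2 + (a * d - b ^ 2) * (x * x + y * y) := by ring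
  rw [h, one_mul] at h1
  have h2 : x * x + y * y ≤ (a + d) * (a * (x * x) + b * (x * y + y * x) + d * (y * y)) := by
    rw [h1]
    nlinarith [sq_nonneg (a * x + b * y), sq_nonneg (b * x + d * y)]
  have h3 : 0 ≤ a * (x * x) + b * (x * y + y * x) + d * (y * y) := by
    by_contra h4
    push Not at h4
    have h5 := mul_neg_of_pos_of_neg hq h4
    nlinarith [mul_self_nonneg x, mul_self_nonneg y]
  calc q * (x * x + y * y) ≤ q * ((a + d) * (a * (x * x) + b * (x * y + y * x) + d * (y * y))) :=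
        mul_le_mul_of_nonneg_left h2 hq0
    _ = (q * (a + d)) * (a * (x * x) + b * (x * y + y * x) + d * (y * y)) := by ring
    _ ≤ 1 * (a * (x * x) + b * (x * y + y * x) + d * (y * y)) :=
        mul_le_mul_of_nonneg_right hq2 h3
    _ = _ := one_mul _

theorem inner_Y11 (hS : MeasurableSet S) (hSD : S ⊆ D) {f1 f2 g1 g2 : P → ℝ}
    (hf1 : MemLp f1 2 (muD D)) (hg1 : MemLp g1 2 (muD D)) :
    (inner ℝ (Y11 D S (prD D f1 f2)) (prD D g1 g2) : ℝ) = ∫ v in S, f1 v * g1 v := by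
  rw [lop_Y11, ← inner_chiD hS hSD hf1 hg1]
  simp [prD, WithLp.prod_inner_apply]

theorem inner_Y12 (hS : MeasurableSet S) (hSD : S ⊆ D) {f1 f2 g1 g2 : P → ℝ}
    (hf1 : MemLp f1 2 (muD D)) (hf2 : MemLp f2 2 (muD D)) (hg1 : MemLp g1 2 (muD D))
    (hg2 : MemLp g2 2 (muD D)) :
    (inner ℝ (Y12 D S (prD D f1 f2)) (prD D g1 g2) : ℝ) =
      ∫ v in S, (f1 v * g2 v + f2 v * g1 v) := by
  have h : ∫ v in S, (f1 v * g2 v + f2 v * g1 v) =
      (∫ v in S, f1 v * g2 v) + ∫ v in S, f2 v * g1 v :=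
    integral_add (lop_int hSD hf1 hg2) (lop_int hSD hf2 hg1)
  rw [h, lop_Y12, ← inner_chiD hS hSD hf1 hg2, ← inner_chiD hS hSD hf2 hg1, add_comm]
  simp [prD, WithLp.prod_inner_apply]

theorem inner_Y22 (hS : MeasurableSet S) (hSD : S ⊆ D) {f1 f2 g1 g2 : P → ℝ}
    (hf2 : MemLp f2 2 (muD D)) (hg2 : MemLp g2 2 (muD D)) :
    (inner ℝ (Y22 D S (prD D f1 f2)) (prD D g1 g2) : ℝ) = ∫ v in S, f2 v * g2 v := by
  rw [lop_Y22, ← inner_chiD hS hSD hf2 hg2]
  simp [prD, WithLp.prod_inner_apply]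

end

variable {D : Set P} {C : J → Set P} {F G : P → P} {A B : J → P}

theorem inner_MD (hC : Cel D C) (A B : J → P) {f1 f2 g1 g2 : P → ℝ}
    (hf1 : MemLp f1 2 (muD D)) (hf2 : MemLp f2 2 (muD D)) (hg1 : MemLp g1 2 (muD D))
    (hg2 : MemLp g2 2 (muD D)) :
    (inner ℝ (MD D C A B (prD D f1 f2)) (prD D g1 g2) : ℝ) = eform C A B f1 f2 g1 g2 := by
  unfold MD eform
  rw [ContinuousLinearMap.sum_apply, sum_inner]
  refine Finset.sum_congr rfl fun j _ => ?_
  have i1 := lop_int (hC.sub j) hf1 hg1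
  have i2 := lop_int (hC.sub j) hf1 hg2
  have i3 := lop_int (hC.sub j) hf2 hg1
  have i4 := lop_int (hC.sub j) hf2 hg2
  have hm := hC.meas j
  have hs := hC.sub j
  rw [ContinuousLinearMap.add_apply, ContinuousLinearMap.add_apply,
    ContinuousLinearMap.smul_apply, ContinuousLinearMap.smul_apply,
    ContinuousLinearMap.smul_apply, inner_add_left, inner_add_left, real_inner_smul_left,
    real_inner_smul_left, real_inner_smul_left, inner_Y11 hm hs hf1 hg1,
    inner_Y12 hm hs hf1 hf2 hg1 hg2, inner_Y22 hm hs hf2 hg2]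
  have j2 : Integrable (fun v => f1 v * g2 v + f2 v * g1 v) (volume.restrict (C j)) :=
    i2.add i3
  have j3 : Integrable (fun v => n11 (A j) (B j) * (f1 v * g1 v) +
      n12 (A j) (B j) * (f1 v * g2 v + f2 v * g1 v)) (volume.restrict (C j)) :=
    (i1.const_mul _).add (j2.const_mul _)
  rw [← integral_const_mul, ← integral_const_mul, ← integral_const_mul,
    ← integral_add (i1.const_mul _) (j2.const_mul _), ← integral_add j3 (i4.const_mul _)]

theorem inner_AD [DU D] (C : J → Set P) (A B : J → P) (g g' : HD D) :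
    (inner ℝ (AD D C A B g) g' : ℝ) = inner ℝ (MD D C A B (g : VD D)) (g' : VD D) := by
  show (inner ℝ ((HD D).orthogonalProjection (MD D C A B (g : VD D))) g' : ℝ) = _
  exact Submodule.inner_orthogonalProjection_eq_of_mem_right g' _

private theorem lop_eform_symm (C : J → Set P) (A B : J → P) (f1 f2 g1 g2 : P → ℝ) :
    eform C A B f1 f2 g1 g2 = eform C A B g1 g2 f1 f2 := by
  unfold eform
  refine Finset.sum_congr rfl fun j _ => ?_
  congr 1
  funext v
  ring

theorem coer_AD [DU D] (hC : Cel D C) (hd : ∀ j, 0 < det2 (A j) (B j)) :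
    PA.Coer (AD D C A B) := by
  refine ⟨fun g h => ?_, ?_⟩
  · rw [inner_AD, real_inner_comm (AD D C A B h) g, inner_AD]
    obtain ⟨f1, f2, hf1, hf2, hf⟩ := exists_prD (g : VD D)
    obtain ⟨g1, g2, hg1, hg2, hg⟩ := exists_prD (h : VD D)
    rw [hf, hg, inner_MD hC A B hf1 hf2 hg1 hg2, inner_MD hC A B hg1 hg2 hf1 hf2]
    exact lop_eform_symm C A B f1 f2 g1 g2
  · have hS : ∀ j, 0 < n11 (A j) (B j) + n22 (A j) (B j) := fun j => (lop_det (hd j)).2
    have hsum : 0 < 1 + ∑ j, (n11 (A j) (B j) + n22 (A j) (B j)) :=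
      add_pos_of_pos_of_nonneg one_pos (Finset.sum_nonneg fun j _ => (hS j).le)
    refine ⟨(1 + ∑ j, (n11 (A j) (B j) + n22 (A j) (B j)))⁻¹, inv_pos.2 hsum, fun g => ?_⟩
    rw [inner_AD]
    obtain ⟨f1, f2, hf1, hf2, hf⟩ := exists_prD (g : VD D)
    have h1 : ‖g‖ ^ 2 = ∫ x in D, (f1 x * f1 x + f2 x * f2 x) := by
      rw [← inner_prD hf1 hf2 hf1 hf2, ← hf, real_inner_self_eq_norm_sq]
      rfl
    have hi : IntegrableOn (fun x => f1 x * f1 x + f2 x * f2 x) D :=
      (hf1.integrable_mul hf1).add (hf2.integrable_mul hf2)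
    rw [h1, hf, inner_MD hC A B hf1 hf2 hf1 hf2, integral_cel hC (measurableSet_DU D) hi,
      Finset.mul_sum]
    unfold eform
    refine Finset.sum_le_sum fun j _ => ?_
    have i1 := lop_int (hC.sub j) hf1 hf1
    have i2 := lop_int (hC.sub j) hf1 hf2
    have i3 := lop_int (hC.sub j) hf2 hf1
    have i4 := lop_int (hC.sub j) hf2 hf2
    rw [← integral_const_mul]
    refine integral_mono ((i1.add i4).const_mul _)
      (((i1.const_mul _).add ((i2.add i3).const_mul _)).add (i4.const_mul _)) fun v => ?_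
    refine lop_quad (lop_det (hd j)).1 (hS j) ?_ (inv_pos.2 hsum).le
    rw [inv_mul_le_iff₀ hsum, mul_one]
    have h2 := Finset.single_le_sum (f := fun j => n11 (A j) (B j) + n22 (A j) (B j))
      (fun i _ => (hS i).le) (Finset.mem_univ j)
    linarith

theorem RD_sq (hC : Cel D C) (hd : ∀ j, 0 < det2 (A j) (B j)) {f : P → ℝ}
    (hf : MemLp f 2 (muD D)) : ‖RD D C A B (clD D f)‖ ^ 2 = mform C A B f f := by
  unfold RD mform
  rw [PA.Cut.norm_RR (cut_chiD hC)]
  refine Finset.sum_congr rfl fun j _ => ?_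
  rw [Real.sq_sqrt (hd j).le, norm_chiD (hC.meas j) (hC.sub j) hf]
  congr 2
  funext v
  ring

end Pool.Agent.MP4eed4eX.L
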